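import Pool.Agent.H44.LD.LDefs
import Pool.Agent.H91.CE.CHARTC
import Pool.Agent.H35.EX.ChartK
import Pool.Agent.H79.Par.RobNull

/-!
# Module CHLD: a good chart

PROOF: as `chart_ce` (H91/CE/CHARTC, copy it with its private lemmas), where a critical point may also be of type `Ty4`. `hbd` (density of the points of type `Ty12`) follows from `hae`: the complement of the set is null in the plane, so every open nonempty set of the sphere contains such a finite point.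
New: (1) a critical point of type 4: `Ty4 (Rf v0) c z n` is transported by `φ` as in `chart_K` (H35/EX/ChartK; lemmas of H79/Par/TanConj), `z ≠ s` since `s` is not periodic, and `z` has finite iterates in the chart; type 1, 2 in the same way (`ty12_conj`), giving the first alternative. (2) `volume {z : ℂ | ¬ Basin (Lin s v0) z} = 0`: by `basin_ae` (H79/Par/RobNull) it is enough that almost every
`w : ℂ` has `∃ z' n, Ty12 (Rf (Lin s v0)) w z' n`; for `w ≠ 0`, `w = φ x` with `x = s + 1 / w`; the set of the `w` with `x` in the null set of `hae` is the image of a null set under `x ↦ 1 / (x - s)`, differentiable off `s`: null (`addHaar_image_eq_zero_of_differentiableOn_of_addHaar_eq_zero`, over `ℝ`); `ty12_conj` needs `z ≠ s`, where `z` is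
periodic and `s` is not.
-/

set_option autoImplicit false

open Filter Topology Polynomial Metric Set MeasureTheory

namespace Pool.Agent.H44.LD

open Pool.Agent.H44.Fatou Pool.Agent.H32.BT Pool.Agent.H79.Eul Pool.Agent.H79.Par
open Pool.Agent.H35.RL Pool.Agent.H35.EX Pool.Agent.H91.CE

/-- an open set of points converging to the cycle of an attracted point -/
private theorem chld_open {d : ℕ} (hd : 2 ≤ d) {v0 : E d} (hcop : IsCoprime (pol v0.1) (pol v0.2))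
    (hdeg : max (pol v0.1).natDegree (pol v0.2).natDegree = d) {x z : OnePoint ℂ} {n : ℕ}
    (hT : Ty12 (Rf v0) x z n) : ∃ U : Set (OnePoint ℂ), IsOpen U ∧ x ∈ U ∧
      ∀ y ∈ U, Pool.Agent.H80.AJ.CL (Rf v0) y z n := by
  have hev : ∀ᶠ y in 𝓝 x, Pool.Agent.H80.AJ.CL (Rf v0) y z n := by
    rcases hT with h1 | h1
    · exact Pool.Agent.H80.AJ.ty1_open (rat_continuous hcop) h1
    · exact Pool.Agent.H80.AJ.ty2_open hcop (by rw [hdeg]; omega) h1
  obtain ⟨U, hUs, hUo, hxU⟩ := mem_nhds_iff.1 hev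
  exact ⟨U, hUo, hxU, fun y hy => hUs hy⟩

open Pool.Agent.H80.AJ in
theorem chart_ld {d : ℕ} (hd : 2 ≤ d) {v0 : E d} (hcop : IsCoprime (pol v0.1) (pol v0.2))
    (hdeg : max (pol v0.1).natDegree (pol v0.2).natDegree = d)
    (h : ∀ c, IsCrit (Rf v0) c → (∃ z n, Ty12 (Rf v0) c z n ∨ Ty4 (Rf v0) c z n) ∨
      ∃ m : ℕ, CEAt (Rf v0) ((Rf v0)^[m] c))
    (hae : volume {z : ℂ | ¬ ∃ (z' : OnePoint ℂ) (n : ℕ), Ty12 (Rf v0) (z : OnePoint ℂ) z' n} = 0) :
    ∃ (s : ℂ) (K : Set ℂ), Chart0 (Lin s v0) ∧ ¬ IsCrit (Rf (Lin s v0)) OnePoint.infty ∧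
      Inv (Lin s v0) K ∧ volume {z : ℂ | ¬ Basin (Lin s v0) z} = 0 ∧
      ∀ c : ℂ, IsCrit (Rf (Lin s v0)) (c : OnePoint ℂ) →
        (∃ (z : ℂ) (n : ℕ), (Ty12 (Rf (Lin s v0)) (c : OnePoint ℂ) (z : OnePoint ℂ) n ∨
            Ty4 (Rf (Lin s v0)) (c : OnePoint ℂ) (z : OnePoint ℂ) n) ∧
          ∀ j, (Rf (Lin s v0))^[j] (z : OnePoint ℂ) ≠ OnePoint.infty) ∨
        ((∀ j, it (Lin s v0) j c ∈ K) ∧ ∃ m : ℕ, Gr (Lin s v0) (it (Lin s v0) m c)) := by
  classical
  have hd1 : 1 ≤ max (pol v0.1).natDegree (pol v0.2).natDegree := by rw [hdeg]; omega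
  have hd2 : 2 ≤ max (pol v0.1).natDegree (pol v0.2).natDegree := by rw [hdeg]; exact hd
  have hcont : Continuous (Rf v0) := rat_continuous hcop
  have hfin : {c | IsCrit (Rf v0) c}.Finite := crit_finite hcop hd1
  obtain ⟨x0, z0, n0, hT0⟩ : ∃ (x : OnePoint ℂ) (z : OnePoint ℂ) (n : ℕ), Ty12 (Rf v0) x z n := by
    by_contra hno
    have h1 : {z : ℂ | ¬ ∃ (z' : OnePoint ℂ) (n : ℕ), Ty12 (Rf v0) (z : OnePoint ℂ) z' n} =
        Set.univ := by
      ext z
      refine ⟨fun _ => trivial, fun _ => ?_⟩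
      rintro ⟨z', n, h2⟩
      exact hno ⟨_, z', n, h2⟩
    rw [h1] at hae
    exact (isOpen_univ.measure_pos volume ⟨(0 : ℂ), Set.mem_univ _⟩).ne' hae
  obtain ⟨U0, hU0, hx0, hU0C⟩ := chld_open hd hcop hdeg hT0
  obtain ⟨U, hU, hUn, hUd⟩ := avoid_open hcont hfin hU0 ⟨x0, hx0⟩ hU0C
  obtain ⟨S, hS⟩ : ∃ S : Set (OnePoint ℂ), S =
      ({x : OnePoint ℂ | ∃ n : ℕ, 0 < n ∧ (Rf v0)^[n] x = x} ∪ {c | IsCrit (Rf v0) c}) ∪
      (⋃ c ∈ {c | IsCrit (Rf v0) c}, Set.range (fun j : ℕ => (Rf v0)^[j] c)) := ⟨_, rfl⟩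
  have hScount : S.Countable := by
    rw [hS]
    exact ((per_all_countable hcop hd2).union hfin.countable).union
      (hfin.countable.biUnion fun c _ => Set.countable_range _)
  obtain ⟨s, φ, hsS, hsU, hφs, hφ, hφi, hconj, hcop1, hdeg1⟩ := good_U hd hcop hdeg hScount hU hUn
  rw [hS] at hsS
  have hs0 : ∀ n : ℕ, 0 < n → (Rf v0)^[n] (s : OnePoint ℂ) ≠ s :=
    fun n hn hh => hsS (Or.inl (Or.inl ⟨n, hn, hh⟩))
  have hs1 : ¬ IsCrit (Rf v0) (s : OnePoint ℂ) :=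
    fun hh => hsS (Or.inl (Or.inr hh))
  have hs2 : ∀ c, IsCrit (Rf v0) c → ∀ j, (Rf v0)^[j] c ≠ (s : OnePoint ℂ) := by
    intro c hc j hj
    apply hsS
    refine Or.inr ?_
    rw [Set.mem_iUnion₂]
    exact ⟨c, hc, j, hj⟩
  have hne : ∀ x : OnePoint ℂ, x ≠ (s : OnePoint ℂ) → φ x ≠ OnePoint.infty := by
    intro x hx hh
    rw [← hφs] at hh
    exact hx (φ.injective hh)
  have hic : ∀ (j : ℕ) (x : OnePoint ℂ), (Rf (Lin s v0))^[j] (φ x) = φ ((Rf v0)^[j] x) :=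
    fun j x => iter_conj φ hconj j x
  -- the compact set
  obtain ⟨KK, hKKe⟩ : ∃ KK : Set (OnePoint ℂ), KK = ⋃ c ∈ {c | IsCrit (Rf v0) c},
    closure (Set.range (fun j : ℕ => (Rf v0)^[j] c)) := ⟨_, rfl⟩
  have hKKc : IsCompact KK := by
    rw [hKKe]
    exact (hfin.isClosed_biUnion fun c _ => isClosed_closure).isCompact
  have hsKK : (s : OnePoint ℂ) ∉ KK := by
    rw [hKKe, Set.mem_iUnion₂]
    rintro ⟨c, hc, hcs⟩
    exact Set.disjoint_left.1 (hUd c hc) hcs hsU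
  have hKKm : ∀ x ∈ KK, Rf v0 x ∈ KK := by
    intro x hx
    rw [hKKe, Set.mem_iUnion₂] at hx ⊢
    obtain ⟨c, hc, hx⟩ := hx
    refine ⟨c, hc, ?_⟩
    have h1 : MapsTo (Rf v0) (Set.range (fun j : ℕ => (Rf v0)^[j] c))
        (Set.range (fun j : ℕ => (Rf v0)^[j] c)) := by
      rintro _ ⟨j, rfl⟩
      exact ⟨j + 1, Function.iterate_succ_apply' _ _ _⟩
    exact h1.closure hcont hx
  have hKKi : ∀ c, IsCrit (Rf v0) c → ∀ j, (Rf v0)^[j] c ∈ KK := by
    intro c hc j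
    rw [hKKe, Set.mem_iUnion₂]
    exact ⟨c, hc, subset_closure ⟨j, rfl⟩⟩
  have hKKit : ∀ (n : ℕ), ∀ x ∈ KK, (Rf v0)^[n] x ∈ KK := by
    intro n
    induction n with
    | zero => intro x hx; exact hx
    | succ n ih =>
      intro x hx
      rw [Function.iterate_succ_apply']
      exact hKKm _ (ih x hx)
  have hKfin : ∀ x ∈ KK, φ x ≠ OnePoint.infty := by
    intro x hx
    apply hne
    intro hh
    rw [hh] at hx
    exact hsKK hx
  have horb : ∀ w : ℂ, (∃ x ∈ KK, φ x = (w : OnePoint ℂ)) →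
      (∀ n, Orb (Lin s v0) (fun j => it (Lin s v0) j w) n) ∧
      ∀ j, (Rf (Lin s v0))^[j] (w : OnePoint ℂ) = ((it (Lin s v0) j w : ℂ) : OnePoint ℂ) := by
    rintro w ⟨x, hx, hxw⟩
    apply orb_all
    intro j
    rw [← hxw, hic]
    exact hKfin _ (hKKit j x hx)
  have hcomp : IsCompact {w : ℂ | ∃ x ∈ KK, φ x = (w : OnePoint ℂ)} := by
    rw [OnePoint.isOpenEmbedding_coe.isInducing.isCompact_iff]
    have h1 : ((fun w : ℂ => (w : OnePoint ℂ)) '' {w : ℂ | ∃ x ∈ KK, φ x = (w : OnePoint ℂ)})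
        = φ '' KK := by
      ext y
      constructor
      · rintro ⟨w, ⟨x, hx, hxw⟩, rfl⟩
        exact ⟨x, hx, hxw⟩
      · rintro ⟨x, hx, rfl⟩
        obtain ⟨w, hw⟩ := OnePoint.ne_infty_iff_exists.1 (hKfin x hx)
        exact ⟨w, ⟨x, hx, hw.symm⟩, hw⟩
    have h2 : IsCompact (φ '' KK) := hKKc.image φ.continuous
    rw [← h1] at h2
    exact h2
  have hInv : Inv (Lin s v0) {w : ℂ | ∃ x ∈ KK, φ x = (w : OnePoint ℂ)} := by
    refine ⟨hcomp, ?_, ?_⟩
    · intro w hw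
      exact ((horb w hw).1 1 0 Nat.one_pos).1
    · intro w hw
      obtain ⟨x, hx, hxw⟩ := id hw
      refine ⟨Rf v0 x, hKKm x hx, ?_⟩
      have h1 := (horb w hw).2 1
      rw [← h1, ← hxw]
      exact (hconj x).symm
  have hper : ∀ z : OnePoint ℂ, ∀ n : ℕ, 0 < n → (Rf v0)^[n] z = z →
      ∀ j, (Rf v0)^[j] z ≠ (s : OnePoint ℂ) := by
    intro z n hn hz j hj
    apply hs0 n hn
    rw [← hj, ← Function.iterate_add_apply, Nat.add_comm, Function.iterate_add_apply, hz]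
  have hper12 : ∀ (x z : OnePoint ℂ) (n : ℕ), Ty12 (Rf v0) x z n → 0 < n ∧ (Rf v0)^[n] z = z := by
    intro x z n hT
    rcases hT with h3 | ⟨hn, hfix, -⟩
    · exact ⟨h3.1.1, h3.1.2.1⟩
    · exact ⟨hn, Pool.Agent.H80.AJ.fixMult_fix hfix⟩
  have hchart : Chart0 (Lin s v0) := by
    refine ⟨hcop1, hdeg1, ?_, ?_⟩
    · intro n hn hcon
      rw [← hφs, hic] at hcon
      exact hs0 n hn (φ.injective hcon)
    · intro c hc j
      obtain ⟨c', rfl⟩ := φ.surjective c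
      rw [isCrit_conj φ hconj] at hc
      rw [hic]
      exact hne _ (hs2 c' hc j)
  refine ⟨s, {w : ℂ | ∃ x ∈ KK, φ x = (w : OnePoint ℂ)}, hchart, ?_, hInv, ?_, ?_⟩
  · rw [← hφs, isCrit_conj φ hconj]
    exact hs1
  · refine basin_ae hd hchart ?_
    obtain ⟨N, hN⟩ : ∃ N : Set ℂ, N = {z : ℂ | ¬ ∃ (z' : OnePoint ℂ) (n : ℕ),
      Ty12 (Rf v0) (z : OnePoint ℂ) z' n} := ⟨_, rfl⟩
    rw [← hN] at hae
    have hN1 : volume (N \ {s}) = 0 := measure_mono_null sdiff_subset hae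
    have hdiff : DifferentiableOn ℝ (fun x : ℂ => (x - s)⁻¹) (N \ {s}) := by
      have h1 : DifferentiableOn ℂ (fun x : ℂ => (x - s)⁻¹) (N \ {s}) := by
        intro x hx
        have h2 : x - s ≠ 0 := sub_ne_zero.2 fun hh => hx.2 hh
        exact (((differentiableAt_id (𝕜 := ℂ) (x := x)).sub_const s).inv h2).differentiableWithinAt
      exact h1.restrictScalars ℝ
    have hN2 : volume ((fun x : ℂ => (x - s)⁻¹) '' (N \ {s})) = 0 :=
      addHaar_image_eq_zero_of_differentiableOn_of_addHaar_eq_zero volume hdiff hN1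
    refine measure_mono_null (t := {(0 : ℂ)} ∪ (fun x : ℂ => (x - s)⁻¹) '' (N \ {s})) ?_
      (measure_union_null (measure_singleton _) hN2)
    intro w hw
    by_contra hnot
    rw [Set.mem_union, not_or] at hnot
    obtain ⟨hw0, hwi⟩ := hnot
    have hw0' : w ≠ 0 := fun hh => hw0 hh
    have hxs : s + w⁻¹ ≠ s := by
      intro hh
      exact inv_ne_zero hw0' (add_eq_left.1 hh)
    have hxN : s + w⁻¹ ∉ N := by
      intro hh
      refine hwi ⟨s + w⁻¹, ⟨hh, hxs⟩, ?_⟩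
      show (s + w⁻¹ - s)⁻¹ = w
      rw [add_sub_cancel_left, inv_inv]
    have hφx : φ ((s + w⁻¹ : ℂ) : OnePoint ℂ) = (w : OnePoint ℂ) := by
      rw [hφ _ hxs, add_sub_cancel_left, inv_inv]
    rw [hN] at hxN
    apply hxN
    rintro ⟨z, n, hT⟩
    have hz := hper z n (hper12 _ _ _ hT).1 (hper12 _ _ _ hT).2
    have hz0 : z ≠ (s : OnePoint ℂ) := hz 0
    apply hw
    refine ⟨φ z, n, ?_⟩
    rw [← hφx]
    exact ty12_conj hφs hφ hφi hconj hz0 hT
  · intro c hc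
    obtain ⟨c', hc'⟩ := φ.surjective (c : OnePoint ℂ)
    have hcr : IsCrit (Rf v0) c' := by
      rw [← isCrit_conj φ hconj, hc']
      exact hc
    rcases h c' hcr with ⟨z, n, hT⟩ | ⟨m, hm⟩
    · have hzp : 0 < n ∧ (Rf v0)^[n] z = z := by
        rcases hT with hT | ⟨hn, hfix, -⟩
        · exact hper12 _ _ _ hT
        · exact ⟨hn, Pool.Agent.H80.AJ.fixMult_fix hfix⟩
      have hz := hper z n hzp.1 hzp.2
      have hz0 : z ≠ (s : OnePoint ℂ) := hz 0
      obtain ⟨z', hz'⟩ := OnePoint.ne_infty_iff_exists.1 (hne z hz0)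
      refine Or.inl ⟨z', n, ?_, fun j => ?_⟩
      · rw [hz', ← hc']
        obtain ⟨t1, t2, t3, t4⟩ := ty_conj hφs hφ hφi hconj (c := c') hz0 (n := n)
        rcases hT with hT | hT
        · exact Or.inl (hT.imp t1 t2)
        · exact Or.inr (t4 hT)
      · rw [hz', hic]
        exact hne _ (hz j)
    · have hcK : ∃ x ∈ KK, φ x = (c : OnePoint ℂ) := ⟨c', hKKi c' hcr 0, hc'⟩
      have hitK : ∀ j, ∃ x ∈ KK, φ x = ((it (Lin s v0) j c : ℂ) : OnePoint ℂ) := by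
        intro j
        refine ⟨(Rf v0)^[j] c', hKKi c' hcr j, ?_⟩
        rw [← (horb c hcK).2 j, ← hc', hic]
      refine Or.inr ⟨hitK, m, ?_⟩
      have hxw : φ ((Rf v0)^[m] c') = ((it (Lin s v0) m c : ℂ) : OnePoint ℂ) := by
        rw [← (horb c hcK).2 m, ← hc', hic]
      refine gr_conj hφs hφ hφi hconj hxw hm hcomp ?_ ?_
      · intro j
        have h1 := hitK (j + m)
        rw [it_add] at h1
        exact h1
      · intro j
        rw [← hxw, hic]
        exact hKfin _ (hKKit j _ (hKKi c' hcr m))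

end Pool.Agent.H44.LD
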