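import Pool.Agent.H44.LD.LDefs
import Pool.Agent.H91.CE.CHARTC
import Pool.Agent.H79.Par.AttGood

/-!
# Module ATTO: attraction is an open condition in the map and the point

PROOF. `Att (Rf v0) x`: a sink `z`, period `n`. The orbits of `x` and of `z` and the periodic points are a countable set; take `s : ℂ` outside it with `x ≠ s` (`good_U` with `U = univ`, see the use in H91/CE/CHARTC, or `exists_mob s` (H32/BT) together with the lemmas on `Lin s` of H79/Eul/CjFamily, H79/Par/ChartNull, which hold for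
all coprime pairs of degree `d`). With `φ` the Möbius homeomorphism, `φ s = ∞`, `φ y = 1 / (y - s)`, `w0 = Lin s v0`: `φ x = x'`, `φ z = z'` are finite with finite orbits, `isSink_conj`, `att_good hd hcop1 hdeg1 .. (y := fun j => it w0 j x')` gives
`∀ᶠ u in 𝓝 (w0, x'), Att (Rf u.1) u.2`. Pull back with `(w, y) ↦ (Lin s w, 1 / (y - s))`, continuous at `(v0, x)` (`Lin s` is linear on a finite dimensional space). For `w` near `v0` (coprime of degree `d`: `cop_near`) the map `Rf (Lin s w)` is conjugate to `Rf w` by the same `φ`: `att_conj`.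
-/

set_option autoImplicit false

open Filter Topology Polynomial Metric Set MeasureTheory

namespace Pool.Agent.H44.LD

open Pool.Agent.H44.Fatou Pool.Agent.H32.BT Pool.Agent.H79.Eul Pool.Agent.H79.Par
open Pool.Agent.H35.RL Pool.Agent.H35.EX Pool.Agent.H91.CE

theorem att_near {d : ℕ} (hd : 2 ≤ d) {v0 : E d} (hcop : IsCoprime (pol v0.1) (pol v0.2))
    (hdeg : max (pol v0.1).natDegree (pol v0.2).natDegree = d) {x : ℂ}
    (h : Att (Rf v0) (x : OnePoint ℂ)) :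
    ∀ᶠ w : E d × ℂ in 𝓝 v0 ×ˢ 𝓝 x, Att (Rf w.1) (w.2 : OnePoint ℂ) := by
  classical
  have hd1 : 1 ≤ d := by omega
  have hdm : 1 ≤ max (pol v0.1).natDegree (pol v0.2).natDegree := by rw [hdeg]; omega
  have hd2 : 2 ≤ max (pol v0.1).natDegree (pol v0.2).natDegree := by rw [hdeg]; exact hd
  obtain ⟨z, n, hz, hlim⟩ := h
  obtain ⟨S, hS⟩ : ∃ S : Set (OnePoint ℂ), S =
      {x : OnePoint ℂ | ∃ n : ℕ, 0 < n ∧ (Rf v0)^[n] x = x} ∪
      Set.range (fun j : ℕ => (Rf v0)^[j] (x : OnePoint ℂ)) := ⟨_, rfl⟩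
  have hScount : S.Countable := by
    rw [hS]
    exact (per_all_countable hcop hd2).union (Set.countable_range _)
  obtain ⟨s, hs⟩ := ((countable_coe hScount).dense_compl ℂ).nonempty
  have hsS : (s : OnePoint ℂ) ∉ S := hs
  rw [hS] at hsS
  have hs0 : ∀ n : ℕ, 0 < n → (Rf v0)^[n] (s : OnePoint ℂ) ≠ s :=
    fun n hn hh => hsS (Or.inl ⟨n, hn, hh⟩)
  have hs1 : ∀ j, (Rf v0)^[j] (x : OnePoint ℂ) ≠ (s : OnePoint ℂ) :=
    fun j hj => hsS (Or.inr ⟨j, hj⟩)
  have hs2 : ∀ j, (Rf v0)^[j] z ≠ (s : OnePoint ℂ) := by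
    intro j hj
    apply hs0 n hz.1
    rw [← hj, ← Function.iterate_add_apply, Nat.add_comm, Function.iterate_add_apply, hz.2.1]
  obtain ⟨φ, hφ, hφs, -, hφd⟩ := exists_mob s
  have hconj : ∀ w : E d, IsCoprime (pol w.1) (pol w.2) →
      max (pol w.1).natDegree (pol w.2).natDegree = d →
      ∀ x, Rf (Lin s w) (φ x) = φ (Rf w x) := by
    intro w hw1 hw2 x
    unfold Rf
    rw [chartNull_pol1, chartNull_pol2]
    exact (hφd d _ _ hw1 hw2 hd1).2.2 x
  have hc1 : IsCoprime (pol (Lin s v0).1) (pol (Lin s v0).2) := by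
    rw [chartNull_pol1, chartNull_pol2]
    exact (hφd d _ _ hcop hdeg hd1).1
  have hc2 : max (pol (Lin s v0).1).natDegree (pol (Lin s v0).2).natDegree = d := by
    rw [chartNull_pol1, chartNull_pol2]
    exact (hφd d _ _ hcop hdeg hd1).2.1
  have hne : ∀ x : OnePoint ℂ, x ≠ (s : OnePoint ℂ) → φ x ≠ OnePoint.infty := by
    intro x hx hh
    rw [← hφs] at hh
    exact hx (φ.injective hh)
  have hic : ∀ (j : ℕ) (x : OnePoint ℂ), (Rf (Lin s v0))^[j] (φ x) = φ ((Rf v0)^[j] x) :=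
    fun j x => iter_conj φ (hconj v0 hcop hdeg) j x
  have hxs : x ≠ s := fun hh => hs1 0 (by rw [hh]; rfl)
  have hφx : φ (x : OnePoint ℂ) = (((x - s)⁻¹ : ℂ) : OnePoint ℂ) := hφ x hxs
  obtain ⟨z', hz'⟩ := OnePoint.ne_infty_iff_exists.1 (hne z (hs2 0))
  have hsink : IsSink (Rf (Lin s v0)) (z' : OnePoint ℂ) n := by
    rw [hz']
    exact (isSink_conj φ (hconj v0 hcop hdeg) z n).2 hz
  have hzfin : ∀ j, (Rf (Lin s v0))^[j] (z' : OnePoint ℂ) ≠ OnePoint.infty := by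
    intro j
    rw [hz', hic]
    exact hne _ (hs2 j)
  obtain ⟨hyo, -⟩ := orb_all (v0 := Lin s v0) (z := (x - s)⁻¹) (by
    intro j
    rw [← hφx, hic]
    exact hne _ (hs1 j))
  have hlim' : Tendsto (fun j => (Rf (Lin s v0))^[n * j] (((x - s)⁻¹ : ℂ) : OnePoint ℂ)) atTop
      (𝓝 (z' : OnePoint ℂ)) := by
    rw [hz', ← hφx]
    have h1 := (φ.continuous.tendsto z).comp hlim
    refine h1.congr fun j => ?_
    exact (hic (n * j) _).symm
  have hgood := att_good hd hc1 hc2 hsink hzfin (y := fun j => it (Lin s v0) j (x - s)⁻¹) hyo hlim'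
  have hgood' : ∀ᶠ u : E d × ℂ in 𝓝 (Lin s v0, (x - s)⁻¹), Att (Rf u.1) (u.2 : OnePoint ℂ) := hgood
  have hcont : Tendsto (fun w : E d × ℂ => (Lin s w.1, (w.2 - s)⁻¹)) (𝓝 (v0, x))
      (𝓝 (Lin s v0, (x - s)⁻¹)) := by
    have h1 : Tendsto (fun w : E d × ℂ => Lin s w.1) (𝓝 (v0, x)) (𝓝 (Lin s v0)) :=
      ((lin_cont s).comp continuous_fst).tendsto (v0, x)
    have h2 : Tendsto (fun w : E d × ℂ => (w.2 - s)⁻¹) (𝓝 (v0, x)) (𝓝 ((x - s)⁻¹)) := by
      have h3 : Tendsto (fun w : E d × ℂ => w.2 - s) (𝓝 (v0, x)) (𝓝 (x - s)) :=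
        (continuous_snd.sub continuous_const).tendsto (v0, x)
      exact h3.inv₀ (sub_ne_zero.2 hxs)
    exact h1.prodMk_nhds h2
  have hcopn : ∀ᶠ w : E d × ℂ in 𝓝 (v0, x), IsCoprime (pol w.1.1) (pol w.1.2) ∧
      max (pol w.1.1).natDegree (pol w.1.2).natDegree = d :=
    (continuous_fst.tendsto (v0, x)).eventually (cop_near hcop hdeg hd1)
  have hnes : ∀ᶠ w : E d × ℂ in 𝓝 (v0, x), w.2 ≠ s :=
    (continuous_snd.tendsto (v0, x)).eventually (isOpen_ne.mem_nhds hxs)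
  rw [← nhds_prod_eq]
  filter_upwards [hcont.eventually hgood', hcopn, hnes] with w h1 h2 h3
  have h4 : φ (w.2 : OnePoint ℂ) = (((w.2 - s)⁻¹ : ℂ) : OnePoint ℂ) := hφ w.2 h3
  have h5 : Att (Rf (Lin s w.1)) (φ (w.2 : OnePoint ℂ)) := by
    rw [h4]
    exact h1
  exact (att_conj φ (hconj w.1 h2.1 h2.2) (w.2 : OnePoint ℂ)).1 h5

end Pool.Agent.H44.LD
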