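import Pool.Agent.H44.LD.LDefs
import Pool.Agent.H44.LD.ATTO
import Pool.Agent.H91.CE.HYPF

/-!
# Module ACO: openness of the local condition

PROOF. `N` open, `v0 ∈ N`, all `w ∈ N` coprime of degree `d` (`cop_near`, `mem_nhds_iff`). Let `w1 ∈ N` with `AC c δ w1`. For every `z ∈ closedBall c δ`: if `wv w1 z ≠ 0` then `wv w z' ≠ 0` for `(w, z')` near `(w1, z)` (`wv_cont`); otherwise `Att (Rf w1) z` and
`att_near`. So `∀ᶠ (w, z') near (w1, z), wv w z' = 0 → Att (Rf w) z'`; `ev_compact` (used in `hyp_near`, H91/CE/HYPF) gives a neighbourhood of `w1` for all `z' ∈ closedBall c δ`. `isOpen_iff_mem_nhds`.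
-/

set_option autoImplicit false

open Filter Topology Polynomial Metric Set MeasureTheory

namespace Pool.Agent.H44.LD

open Pool.Agent.H44.Fatou Pool.Agent.H32.BT Pool.Agent.H79.Eul Pool.Agent.H79.Par
open Pool.Agent.H35.RL Pool.Agent.H35.EX Pool.Agent.H91.CE

theorem ac_open {d : ℕ} (hd : 2 ≤ d) {v0 : E d} (hcop : IsCoprime (pol v0.1) (pol v0.2))
    (hdeg : max (pol v0.1).natDegree (pol v0.2).natDegree = d) (c : ℂ) (δ : ℝ) :
    OpenAt v0 (AC c δ) := by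
  obtain ⟨N, hN1, hN2, hN3⟩ := _root_.eventually_nhds_iff.1 (cop_near hcop hdeg (by omega))
  refine ⟨N, hN2, hN3, isOpen_iff_mem_nhds.2 ?_⟩
  rintro w1 ⟨hw1, hAC⟩
  refine inter_mem (hN2.mem_nhds hw1) ?_
  have hloc : ∀ z ∈ closedBall c δ, ∀ᶠ y : E d × ℂ in 𝓝 w1 ×ˢ 𝓝 z,
      (wv y.1 y.2 = 0 → Att (Rf y.1) (y.2 : OnePoint ℂ)) := by
    intro z hz
    by_cases hw : wv w1 z = 0
    · have h1 := att_near hd (hN1 w1 hw1).1 (hN1 w1 hw1).2 (hAC z hz hw)
      filter_upwards [h1] with y hy _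
      exact hy
    · have h1 : ∀ᶠ y : E d × ℂ in 𝓝 w1 ×ˢ 𝓝 z, wv y.1 y.2 ≠ 0 := by
        rw [← nhds_prod_eq]
        exact ((wv_cont (d := d)).tendsto (w1, z)).eventually_ne hw
      filter_upwards [h1] with y hy h2
      exact absurd h2 hy
  exact ev_compact (p := fun (w : E d) z => wv w z = 0 → Att (Rf w) (z : OnePoint ℂ))
    (isCompact_closedBall c δ) hloc

end Pool.Agent.H44.LD
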