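import Pool.Agent.H44.LD.LDefs
import Pool.Agent.H91.CE.LIMS

/-!
# Module LIM1: limits along good scales

PROOF: the proof of `lims` (H91/CE/LIMS), where the scales `r j` are now given (`r = ρ`) and there is one run: copy it with `r j = ρ j`, `2 * L * r1` replaced by `B` (if `B < 0` use `|B|`; `B ≥ 0` follows from `t = 0`
in `Good1`), no index `k`: `n j` from `hG j`, `Φ j X = g (n j) (3/4 ρ_j X)` on `ball 0 (4/3)`, Cauchy, `ascoli` (one function), the joint limit from the common Lipschitz constant, nonconstant by a limit point of the `t_j / (3/4 ρ_j)`.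
-/

set_option autoImplicit false

open Filter Topology Polynomial Metric Set MeasureTheory

namespace Pool.Agent.H44.LD

open Pool.Agent.H44.Fatou Pool.Agent.H32.BT Pool.Agent.H79.Eul Pool.Agent.H79.Par
open Pool.Agent.H35.RL Pool.Agent.H35.EX Pool.Agent.H91.CE

theorem lim1 {g : ℕ → ℂ → ℂ} {ok : ℕ → ℂ → Prop} {B R s : ℝ} {ρ : ℕ → ℝ} (hρ : ∀ j, 0 < ρ j)
    (hs : 0 < s) (hR : ∀ n, ‖g n 0‖ ≤ R) (hG : ∀ j, Good1 g ok B s (ρ j)) :
    ∃ σ : ℕ → ℕ, StrictMono σ ∧ ∃ (n : ℕ → ℕ) (Ψ : ℂ → ℂ),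
      Lim1 g ok (fun j => 3 / 4 * ρ (σ j)) n Ψ := by
  classical
  choose n hn using hG
  -- the rescaled maps
  set Φ : ℕ → ℂ → ℂ := fun j X => g (n j) (((3 / 4 * ρ j : ℝ) : ℂ) * X) with hΦ
  have hnorm : ∀ j, ‖((3 / 4 * ρ j : ℝ) : ℂ)‖ = 3 / 4 * ρ j := fun j => by
    rw [Complex.norm_real, Real.norm_eq_abs, abs_of_pos (by have := hρ j; positivity)]
  have hmem : ∀ j X, X ∈ ball (0 : ℂ) (4 / 3) → ((3 / 4 * ρ j : ℝ) : ℂ) * X ∈ ball (0 : ℂ) (ρ j) := by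
    intro j X hX
    rw [mem_ball_zero_iff] at hX ⊢
    rw [norm_mul, hnorm]
    have := hρ j
    nlinarith
  set B' : ℝ := R + B with hB
  have hΦb : ∀ j, ∀ X ∈ ball (0 : ℂ) (4 / 3), ‖Φ j X‖ ≤ B' := by
    intro j X hX
    have h1 := (hn j).2.2.1 _ (hmem j X hX)
    have h2 := hR (n j)
    calc ‖Φ j X‖ = ‖(g (n j) (((3 / 4 * ρ j : ℝ) : ℂ) * X) - g (n j) 0)
          + g (n j) 0‖ := by rw [sub_add_cancel]
      _ ≤ ‖g (n j) (((3 / 4 * ρ j : ℝ) : ℂ) * X) - g (n j) 0‖ + ‖g (n j) 0‖ :=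
          norm_add_le _ _
      _ ≤ B' := by rw [hB]; linarith
  have hΦd : ∀ j, DifferentiableOn ℂ (Φ j) (ball 0 (4 / 3)) := by
    intro j
    have h1 : DifferentiableOn ℂ (fun X : ℂ => ((3 / 4 * ρ j : ℝ) : ℂ) * X) (ball 0 (4 / 3)) := by
      fun_prop
    exact (hn j).1.comp h1 (fun X hX => hmem j X hX)
  have hsub : ball (0 : ℂ) 1 ⊆ ball (0 : ℂ) (4 / 3) := ball_subset_ball (by norm_num)
  have hΦderiv : ∀ j, ∀ X ∈ ball (0 : ℂ) 1, ‖deriv (Φ j) X‖ ≤ B' / (1 / 4) := by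
    intro j X hX
    have hcl : closedBall X (1 / 4) ⊆ ball (0 : ℂ) (4 / 3) := by
      intro Y hY
      rw [mem_closedBall, dist_eq_norm] at hY
      rw [mem_ball_zero_iff] at hX ⊢
      calc ‖Y‖ = ‖(Y - X) + X‖ := by rw [sub_add_cancel]
        _ ≤ ‖Y - X‖ + ‖X‖ := norm_add_le _ _
        _ < 4 / 3 := by linarith
    refine Complex.norm_deriv_le_of_forall_mem_sphere_norm_le (by norm_num) ?_ ?_
    · refine DifferentiableOn.diffContOnCl ?_
      refine (hΦd j).mono ?_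
      rw [closure_ball _ (by norm_num)]
      exact hcl
    · intro Y hY
      exact hΦb j Y (hcl (sphere_subset_closedBall hY))
  set Λ : ℝ := B' / (1 / 4) with hΛ
  have hΦL : ∀ j, ∀ X ∈ ball (0 : ℂ) 1, ∀ Y ∈ ball (0 : ℂ) 1,
      ‖Φ j X - Φ j Y‖ ≤ Λ * ‖X - Y‖ := by
    intro j X hX Y hY
    refine Convex.norm_image_sub_le_of_norm_deriv_le (𝕜 := ℂ) (s := ball (0 : ℂ) 1) ?_
      (hΦderiv j) (convex_ball 0 1) hY hX
    intro Z hZ
    exact (hΦd j).differentiableAt (isOpen_ball.mem_nhds (hsub hZ))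
  obtain ⟨σ, Ψ, hσ, hΨ⟩ := ascoli (Φ := Φ) (R := 1) (C := B') (L := Λ) one_pos
      (Filter.Eventually.of_forall fun j X hX => hΦb j X (hsub hX))
      (Filter.Eventually.of_forall fun j => hΦL j)
  -- the joint limit
  have hlim : ∀ η ∈ ball (0 : ℂ) 1,
      Tendsto (fun w : ℕ × ℂ => Φ (σ w.1) w.2) (atTop ×ˢ 𝓝 η) (𝓝 (Ψ η)) := by
    intro η hη
    rw [tendsto_iff_norm_sub_tendsto_zero]
    have h1 : Tendsto (fun w : ℕ × ℂ => Λ * ‖w.2 - η‖ + ‖Φ (σ w.1) η - Ψ η‖)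
        (atTop ×ˢ 𝓝 η) (𝓝 (Λ * 0 + 0)) := by
      refine Tendsto.add (Tendsto.const_mul _ ?_) ?_
      · have h2 : Tendsto (fun x : ℂ => ‖x - η‖) (𝓝 η) (𝓝 0) :=
          tendsto_iff_norm_sub_tendsto_zero.1 tendsto_id
        exact h2.comp tendsto_snd
      · exact (tendsto_iff_norm_sub_tendsto_zero.1 (hΨ η hη)).comp tendsto_fst
    rw [mul_zero, add_zero] at h1
    refine squeeze_zero' (Filter.Eventually.of_forall fun w => norm_nonneg _) ?_ h1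
    have h3 : ∀ᶠ x in 𝓝 η, x ∈ ball (0 : ℂ) 1 := isOpen_ball.mem_nhds hη
    filter_upwards [h3.prod_inr (atTop : Filter ℕ)] with w hw
    calc ‖Φ (σ w.1) w.2 - Ψ η‖
        = ‖(Φ (σ w.1) w.2 - Φ (σ w.1) η) + (Φ (σ w.1) η - Ψ η)‖ := by
          rw [sub_add_sub_cancel]
      _ ≤ ‖Φ (σ w.1) w.2 - Φ (σ w.1) η‖ + ‖Φ (σ w.1) η - Ψ η‖ := norm_add_le _ _
      _ ≤ Λ * ‖w.2 - η‖ + ‖Φ (σ w.1) η - Ψ η‖ :=
          add_le_add (hΦL (σ w.1) w.2 hw η hη) le_rfl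
  have hΨL : ∀ X ∈ ball (0 : ℂ) 1, ∀ Y ∈ ball (0 : ℂ) 1,
      ‖Ψ X - Ψ Y‖ ≤ Λ * ‖X - Y‖ := by
    intro X hX Y hY
    exact le_of_tendsto ((hΨ X hX).sub (hΨ Y hY)).norm
      (Filter.Eventually.of_forall fun j => hΦL (σ j) X hX Y hY)
  refine ⟨σ, hσ, fun j => n (σ j), Ψ, ?_⟩
  refine ⟨?_, ?_, ?_, ?_⟩
  · have hloc : TendstoLocallyUniformlyOn (fun j => Φ (σ j)) Ψ atTop (ball 0 1) := by
      rw [Metric.tendstoLocallyUniformlyOn_iff]
      intro ε hε x hx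
      have hδ : 0 < ε / (4 * (|Λ| + 1)) := by positivity
      refine ⟨ball x (ε / (4 * (|Λ| + 1))) ∩ ball 0 1,
        inter_mem (mem_nhdsWithin_of_mem_nhds (ball_mem_nhds x hδ)) self_mem_nhdsWithin, ?_⟩
      have h1 := (Metric.tendsto_atTop.1 (hΨ x hx)) (ε / 2) (by positivity)
      obtain ⟨N, hN⟩ := h1
      filter_upwards [eventually_ge_atTop N] with j hj
      rintro y ⟨hy1, hy2⟩
      have h2 := hN j hj
      rw [dist_eq_norm] at h2 ⊢
      rw [mem_ball, dist_eq_norm] at hy1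
      have h3 := hΨL y hy2 x hx
      have h4 := hΦL (σ j) x hx y hy2
      have h5 : Λ * ‖y - x‖ ≤ ε / 4 := by
        calc Λ * ‖y - x‖ ≤ (|Λ| + 1) * ‖y - x‖ := by
              refine mul_le_mul_of_nonneg_right ?_ (norm_nonneg _)
              linarith [le_abs_self Λ]
          _ ≤ (|Λ| + 1) * (ε / (4 * (|Λ| + 1))) := by
              refine mul_le_mul_of_nonneg_left hy1.le (by positivity)
          _ = ε / 4 := by field_simp
      have h6 : ‖x - y‖ = ‖y - x‖ := norm_sub_rev _ _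
      rw [h6] at h4
      calc ‖Ψ y - Φ (σ j) y‖
          = ‖(Ψ y - Ψ x) + (Ψ x - Φ (σ j) x) + (Φ (σ j) x - Φ (σ j) y)‖ := by
            congr 1
            ring
        _ ≤ ‖(Ψ y - Ψ x) + (Ψ x - Φ (σ j) x)‖ + ‖Φ (σ j) x - Φ (σ j) y‖ :=
            norm_add_le _ _
        _ ≤ ‖Ψ y - Ψ x‖ + ‖Ψ x - Φ (σ j) x‖ + ‖Φ (σ j) x - Φ (σ j) y‖ :=
            add_le_add (norm_add_le _ _) le_rfl
        _ < ε := by
            rw [norm_sub_rev (Ψ x)]
            linarith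
    refine hloc.differentiableOn (Filter.Eventually.of_forall fun j => ?_) isOpen_ball
    exact (hΦd (σ j)).mono hsub
  · intro hcst
    have ht : ∀ j, ∃ t ∈ ball (0 : ℂ) (ρ j / 2), s ≤ ‖g (n j) t - g (n j) 0‖ :=
      fun j => (hn j).2.2.2
    choose t ht1 ht2 using ht
    set X : ℕ → ℂ := fun j => t j / ((3 / 4 * ρ j : ℝ) : ℂ) with hX
    have hne : ∀ j, ((3 / 4 * ρ j : ℝ) : ℂ) ≠ 0 := by
      intro j
      have := hρ j
      rw [Ne, Complex.ofReal_eq_zero]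
      positivity
    have hXm : ∀ j, X j ∈ closedBall (0 : ℂ) (2 / 3) := by
      intro j
      rw [mem_closedBall_zero_iff]
      show ‖t j / ((3 / 4 * ρ j : ℝ) : ℂ)‖ ≤ 2 / 3
      have h1 := ht1 j
      rw [mem_ball_zero_iff] at h1
      have h2 := hρ j
      rw [norm_div, hnorm, div_le_iff₀ (by positivity)]
      linarith
    have hΦX : ∀ j, Φ j (X j) = g (n j) (t j) := by
      intro j
      show g (n j) (((3 / 4 * ρ j : ℝ) : ℂ) * (t j / ((3 / 4 * ρ j : ℝ) : ℂ))) = _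
      rw [mul_div_cancel₀ _ (hne j)]
    have hΦ0 : ∀ j, Φ j 0 = g (n j) 0 := by
      intro j
      show g (n j) (((3 / 4 * ρ j : ℝ) : ℂ) * 0) = _
      rw [mul_zero]
    obtain ⟨Y, hY, τ, hτ, hconv⟩ := (isCompact_closedBall (0 : ℂ) (2 / 3)).tendsto_subseq
      (fun j => hXm (σ j))
    have hY1 : Y ∈ ball (0 : ℂ) 1 := by
      rw [mem_closedBall_zero_iff] at hY
      rw [mem_ball_zero_iff]
      linarith
    have h01 : (0 : ℂ) ∈ ball (0 : ℂ) 1 := mem_ball_self one_pos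
    have h1 : Tendsto (fun j => Φ (σ (τ j)) (X (σ (τ j)))) atTop (𝓝 (Ψ Y)) :=
      (hlim Y hY1).comp (hτ.tendsto_atTop.prodMk hconv)
    have h2 : Tendsto (fun j => Φ (σ (τ j)) 0) atTop (𝓝 (Ψ 0)) :=
      (hΨ 0 h01).comp hτ.tendsto_atTop
    have h3 := (h1.sub h2).norm
    have h4 : s ≤ ‖Ψ Y - Ψ 0‖ := by
      refine ge_of_tendsto h3 (Filter.Eventually.of_forall fun j => ?_)
      rw [hΦX, hΦ0]
      exact ht2 (σ (τ j))
    rw [hcst Y hY1, sub_self, norm_zero] at h4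
    exact absurd h4 (not_le.mpr hs)
  · intro j i hi t ht
    refine (hn (σ j)).2.1 i hi t ?_
    refine ball_subset_ball ?_ ht
    have := hρ (σ j)
    linarith
  · intro η hη
    exact hlim η hη

end Pool.Agent.H44.LD
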