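import Pool.Agent.H44.LD.LDefs

/-!
# Module COUNT1: most indices have small increments

PROOF. Replace `C` by `|C|`. Take `τ` with `|C| ≤ δ * (τ + 1)` (`exists_nat_ge (|C| / δ)`). By induction on `J`: if `j0 ≤ J` then
`#{j < J | j0 ≤ j, n j + τ < n (j+1)} * (τ + 1) + n j0 ≤ n J`; so the number is at most `n J / (τ + 1) ≤ |C| (J + 1) / (τ + 1) ≤ δ (J + 1)`.
For `J ≤ j0` the filter is empty.
-/

set_option autoImplicit false

open Filter Topology Polynomial Metric Set MeasureTheory

namespace Pool.Agent.H44.LD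

open Pool.Agent.H44.Fatou Pool.Agent.H32.BT Pool.Agent.H79.Eul Pool.Agent.H79.Par
open Pool.Agent.H35.RL Pool.Agent.H35.EX Pool.Agent.H91.CE

theorem count1 {n : ℕ → ℕ} {C : ℝ} {j0 : ℕ} (hmono : ∀ j ≥ j0, n j ≤ n (j + 1))
    (hC : ∀ j ≥ j0, (n j : ℝ) ≤ C * (j + 1)) {δ : ℝ} (hδ : 0 < δ) :
    ∃ τ : ℕ, ∀ J : ℕ,
      (((Finset.range J).filter (fun j => j0 ≤ j ∧ n j + τ < n (j + 1))).card : ℝ) ≤ δ * (J + 1) := by
  obtain ⟨τ, hτ⟩ := exists_nat_ge (|C| / δ)
  refine ⟨τ, fun J => ?_⟩
  have hemp : ∀ J, J ≤ j0 →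
      ((Finset.range J).filter (fun j => j0 ≤ j ∧ n j + τ < n (j + 1))).card = 0 := by
    intro J hJ
    rw [Finset.card_eq_zero, Finset.filter_eq_empty_iff]
    intro j hj h2
    rw [Finset.mem_range] at hj
    omega
  have key : ∀ J, j0 ≤ J →
      ((Finset.range J).filter (fun j => j0 ≤ j ∧ n j + τ < n (j + 1))).card * (τ + 1) + n j0 ≤ n J := by
    intro J hJ
    induction J, hJ using Nat.le_induction with
    | base => rw [hemp j0 le_rfl]; omega
    | succ J hJ ih =>
      rw [Finset.range_add_one, Finset.filter_insert]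
      have h1 := hmono J hJ
      split_ifs with h2
      · rw [Finset.card_insert_of_notMem (by simp)]
        have h3 := h2.2
        nlinarith
      · omega
  rcases le_total J j0 with hJ | hJ
  · rw [hemp J hJ]
    push_cast
    positivity
  · have h1 := key J hJ
    have h2 := hC J hJ
    have h3 : |C| ≤ δ * τ := by
      have := (div_le_iff₀ hδ).1 hτ
      linarith
    have h4 : ((((Finset.range J).filter (fun j => j0 ≤ j ∧ n j + τ < n (j + 1))).card : ℝ)) * (τ + 1)
        ≤ n J := by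
      have h5 : (((Finset.range J).filter (fun j => j0 ≤ j ∧ n j + τ < n (j + 1))).card) * (τ + 1)
        ≤ n J := by omega
      exact_mod_cast h5
    have h6 : (0 : ℝ) ≤ (J : ℝ) + 1 := by positivity
    have h7 : C * (J + 1) ≤ |C| * (J + 1) := mul_le_mul_of_nonneg_right (le_abs_self C) h6
    have h8 : |C| * (J + 1) ≤ δ * τ * (J + 1) := mul_le_mul_of_nonneg_right h3 h6
    have h9 : (0 : ℝ) < (τ : ℝ) + 1 := by positivity
    have h10 : 0 ≤ δ * ((J : ℝ) + 1) := by positivity
    by_contra hcon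
    push Not at hcon
    nlinarith

end Pool.Agent.H44.LD
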