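import Pool.Agent.H44.LD.LDefs
import Pool.Agent.H91.CE.SCALE
import Pool.Agent.H44.LD.COUNT1

/-!
# Module SCALE1: most scales are good

PROOF: as `scales` (H91/CE/SCALE) with one run. Take `j1` with `(1/2)^j1 ≤ ρ0` and `L * (1/2)^j1 ≤ r1`; for `j ≥ j1` let `n j` be the exit time of `exit_time` for the radius
`(1/2)^j` (`n j = 0` for `j < j1`; `hn1 .. hn4` as there). It is monotone for `j ≥ j1` and `n j ≤ C' (j + 1)` (`log (1 / (1/2)^j) = j log 2`). `count1` for `δ` gives `τ`. Put `s = r1 / (L^τ (1 + τ))` and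
`j0 ≥ j1` with `(1/2)^j0 ≤ s`. If `j ≥ j0` and the scale is not good then (`stay_diff`, `exit_bound` give the first three conditions at time `n j`) `‖g (n j) t - g (n j) 0‖ < s` on `ball 0 ((1/2)^j / 2)`, which is
`ball 0 ((1/2)^(j+1))`, and `exit_slow` gives `Stay g r1 ((1/2)^(j+1)) (n j + τ + 1)`, so `n j + τ < n (j+1)` by `hn4`. So the filter is contained in the filter of `count1`.
-/

set_option autoImplicit false

open Filter Topology Polynomial Metric Set MeasureTheory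

namespace Pool.Agent.H44.LD

open Pool.Agent.H44.Fatou Pool.Agent.H32.BT Pool.Agent.H79.Eul Pool.Agent.H79.Par
open Pool.Agent.H35.RL Pool.Agent.H35.EX Pool.Agent.H91.CE

open Classical in
theorem scale1 {g : ℕ → ℂ → ℂ} {ok : ℕ → ℂ → Prop} {M : ℕ} {ρ0 r1 L : ℝ} (h : Run g ok M ρ0 r1 L)
    {δ : ℝ} (hδ : 0 < δ) :
    ∃ s : ℝ, 0 < s ∧ ∃ j0 : ℕ, ∀ J : ℕ,
      (((Finset.range J).filter
        (fun j => j0 ≤ j ∧ ¬ Good1 g ok (2 * L * r1) s ((1 / 2) ^ j))).card : ℝ) ≤ δ * (J + 1) := by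
  have hr1 := h.hr1
  have hρ0 := h.hρ0
  have hL := h.hL
  have hL0 : 0 < L := by linarith
  set R : ℕ → ℝ := fun j => (1 / 2) ^ j with hRdef
  have hR : ∀ j, 0 < R j := fun j => by positivity
  have hRt : Tendsto R atTop (𝓝 0) :=
    tendsto_pow_atTop_nhds_zero_of_lt_one (by norm_num) (by norm_num)
  have hR2 : ∀ j, R (j + 1) = R j / 2 := by
    intro j
    simp only [hRdef]
    rw [pow_succ]
    ring
  have hRle : ∀ i j, i ≤ j → R j ≤ R i := fun i j hij =>
    pow_le_pow_of_le_one (by norm_num) (by norm_num) hij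
  obtain ⟨j1, hj1⟩ := eventually_atTop.1 (hRt.eventually (gt_mem_nhds (lt_min hρ0 (div_pos hr1 hL0))))
  have hRs : ∀ j, j1 ≤ j → R j ≤ ρ0 := fun j hj => (hj1 j hj).le.trans (min_le_left _ _)
  have hRL : ∀ j, j1 ≤ j → L * R j ≤ r1 := fun j hj => by
    have h1 : R j ≤ r1 / L := (hj1 j hj).le.trans (min_le_right _ _)
    rw [le_div_iff₀ hL0] at h1
    linarith
  obtain ⟨C, hC0, hex⟩ := exit_time h
  have hex' : ∀ j, ∃ n : ℕ, j1 ≤ j → (1 ≤ n ∧ (n : ℝ) ≤ C * (1 + Real.log (1 / R j)) ∧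
      Stay g r1 (R j) n ∧ ¬ ∀ t ∈ ball (0 : ℂ) (R j), ‖g n t - g n 0‖ ≤ r1) := by
    intro j
    by_cases hj : j1 ≤ j
    · obtain ⟨n, hn⟩ := hex (R j) (hR j) (hRs j hj) (hRL j hj)
      exact ⟨n, fun _ => hn⟩
    · exact ⟨0, fun hj' => absurd hj' hj⟩
  choose n hn using hex'
  have hmono : ∀ j ≥ j1, n j ≤ n (j + 1) := by
    intro j hj
    by_contra hlt
    push Not at hlt
    refine (hn (j + 1) (by omega)).2.2.2
      (fun t ht => (hn j hj).2.2.1 _ hlt t (ball_subset_ball ?_ ht))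
    rw [hR2]
    have := hR j
    linarith
  have hC : ∀ j ≥ j1, (n j : ℝ) ≤ C * (j + 1) := by
    intro j hj
    refine (hn j hj).2.1.trans ?_
    have h1 : Real.log (1 / R j) = j * Real.log 2 := by
      simp only [hRdef]
      rw [one_div_pow, one_div_one_div, Real.log_pow]
    have h2 : Real.log 2 ≤ 1 := by
      have := Real.log_two_lt_d9
      linarith
    have hj0 : (0 : ℝ) ≤ j := Nat.cast_nonneg j
    rw [h1]
    refine mul_le_mul_of_nonneg_left ?_ hC0.le
    nlinarith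
  obtain ⟨τ, hτ⟩ := count1 (j0 := j1) hmono hC hδ
  have hLτ : 0 < L ^ τ := by positivity
  have hs0 : 0 < r1 / (L ^ τ * (1 + τ)) := by positivity
  refine ⟨r1 / (L ^ τ * (1 + τ)), hs0, ?_⟩
  set s := r1 / (L ^ τ * (1 + τ)) with hs
  have hsr : L ^ τ * (s + τ * s) = r1 := by
    rw [hs]
    field_simp
  obtain ⟨j2, hj2⟩ := eventually_atTop.1 (hRt.eventually (gt_mem_nhds hs0))
  refine ⟨max j1 j2, fun J => le_trans ?_ (hτ J)⟩
  have hsub : (Finset.range J).filter
      (fun j => max j1 j2 ≤ j ∧ ¬ Good1 g ok (2 * L * r1) s ((1 / 2) ^ j)) ⊆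
      (Finset.range J).filter (fun j => j1 ≤ j ∧ n j + τ < n (j + 1)) := by
    intro j hj
    rw [Finset.mem_filter] at hj ⊢
    obtain ⟨hjJ, hj3, hj4⟩ := hj
    have hjj1 : j1 ≤ j := (le_max_left _ _).trans hj3
    have hjj2 : j2 ≤ j := (le_max_right _ _).trans hj3
    refine ⟨hjJ, hjj1, ?_⟩
    by_contra hcount
    push Not at hcount
    apply hj4
    refine ⟨n j, ?_, ?_, ?_, ?_⟩
    · exact (stay_diff h (hR j) (hRs j hjj1) (hn j hjj1).2.2.1).1 _ le_rfl
    · exact (stay_diff h (hR j) (hRs j hjj1) (hn j hjj1).2.2.1).2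
    · exact exit_bound h (hR j) (hRs j hjj1) (hRL j hjj1) (hn j hjj1).1 (hn j hjj1).2.2.1
    · by_contra hcon
      push Not at hcon
      have hlt : R (j + 1) ≤ R j := hRle _ _ (by omega)
      have h1 : Stay g r1 (R (j + 1)) (n j) := fun i hi t ht =>
        (hn j hjj1).2.2.1 i hi t (ball_subset_ball hlt ht)
      have h2 := exit_slow h (s := s) (τ := τ) (hR (j + 1)) (hRs (j + 1) (by omega)) h1
        hs0.le (fun t ht => (hcon t (by
          have h5 : R (j + 1) = (1 / 2) ^ j / 2 := hR2 j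
          rw [← h5]; exact ht)).le) (by
          rw [← hsr]
          have h3 : R (j + 1) ≤ s := (hj2 (j + 1) (by omega)).le
          have h4 : (0 : ℝ) ≤ τ := Nat.cast_nonneg τ
          gcongr)
      refine (hn (j + 1) (by omega)).2.2.2 (h2 _ (by omega))
  exact_mod_cast Finset.card_le_card hsub

end Pool.Agent.H44.LD
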