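import Pool.Agent.H44.LD.LDefs
import Pool.Agent.H44.LD.SCALE1
import Pool.Agent.H44.LD.LIM1

/-!
# Module ABSD: the abstract density argument

PROOF. Let `A` be the set of `j` in the conclusion. Given `δ`, `scale1` gives `s, j0`. The set `A ∩ G`, `G = {j | Good1 g ok (2 * L * r1) s ((1/2)^j)}`, is finite: otherwise let `a : ℕ → ℕ` be strictly monotone with values in it
(`Set.Infinite` and `Nat.nth`, or `Nat.orderEmbeddingOfSet`), `ρ j = (1/2)^(a j)`; `lim1` gives `σ, n, Ψ`, and `hT` for the radii `3/4 * ρ (σ j) = rad (a (σ j))` (positive, tending to `0`) says that the set of the `η ∈ ball 0 1` without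
`∀ᶠ w in atTop ×ˢ 𝓝 η, T (..)` is null. Let `U m = interior {η | ∀ j ≥ m, T (rad (a (σ j)) * η)}`: open, increasing in `m`, and the union contains almost every `η ∈ ball 0 1` (`Filter.eventually_prod_iff`, `eventually_atTop`, `mem_interior_iff_mem_nhds`). So
`volume (ball 0 1 \ U m) → 0` (`tendsto_measure_iInter_atTop`, finite measure, intersection null), and it is `< ε` for some `m`. But for `j = m` the bad set at `rad (a (σ m))` is contained in `ball 0 1 \ U m`: contradiction with `a (σ m) ∈ A`.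
Let `j1` be an upper bound of `A ∩ G`; with `max j0 (j1 + 1)` the filter of `DZ` is contained in the filter of `scale1`.
-/

set_option autoImplicit false

open Filter Topology Polynomial Metric Set MeasureTheory

namespace Pool.Agent.H44.LD

open Pool.Agent.H44.Fatou Pool.Agent.H32.BT Pool.Agent.H79.Eul Pool.Agent.H79.Par
open Pool.Agent.H35.RL Pool.Agent.H35.EX Pool.Agent.H91.CE

theorem abs_dens {g : ℕ → ℂ → ℂ} {ok : ℕ → ℂ → Prop} {M : ℕ} {ρ0 r1 L R : ℝ}
    (h : Run g ok M ρ0 r1 L) (hR : ∀ n, ‖g n 0‖ ≤ R) {T : ℂ → Prop}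
    (hT : ∀ (ρ : ℕ → ℝ) (n : ℕ → ℕ) (Ψ : ℂ → ℂ), (∀ j, 0 < ρ j) → Tendsto ρ atTop (𝓝 0) →
      Lim1 g ok ρ n Ψ → ∀ᵐ η : ℂ, η ∈ ball (0 : ℂ) 1 →
        ∀ᶠ w : ℕ × ℂ in atTop ×ˢ 𝓝 η, T (ρ w.1 * w.2)) {ε : ENNReal} (hε : 0 < ε) :
    DZ {j : ℕ | ε ≤ volume (ball (0 : ℂ) 1 ∩ {η : ℂ | ¬ T ((rad j : ℂ) * η)})} := by
  classical
  obtain ⟨A, hA⟩ : ∃ A : Set ℕ, A = {j : ℕ | ε ≤ volume (ball (0 : ℂ) 1 ∩
    {η : ℂ | ¬ T ((rad j : ℂ) * η)})} := ⟨_, rfl⟩
  rw [← hA]
  intro δ hδ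
  obtain ⟨s, hs, j0, hj0⟩ := scale1 h hδ
  set G : Set ℕ := {j | Good1 g ok (2 * L * r1) s ((1 / 2) ^ j)} with hG
  have hfin : (A ∩ G).Finite := by
    by_contra hinf
    have hinf' : (A ∩ G).Infinite := hinf
    set a : ℕ → ℕ := Nat.nth (fun j => j ∈ A ∩ G) with ha
    have hamono : StrictMono a := Nat.nth_strictMono hinf'
    have hamem : ∀ j, a j ∈ A ∩ G := fun j => Nat.nth_mem_of_infinite hinf' j
    obtain ⟨σ, hσ, n, Ψ, hlim⟩ := lim1 (g := g) (ok := ok) (B := 2 * L * r1) (R := R) (s := s)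
      (ρ := fun j => (1 / 2) ^ (a j)) (fun j => by positivity) hs hR (fun j => (hamem j).2)
    set ρ' : ℕ → ℝ := fun j => 3 / 4 * (1 / 2) ^ (a (σ j)) with hρ'
    have hrad : ∀ j, ρ' j = rad (a (σ j)) := fun j => rfl
    have hpos : ∀ j, 0 < ρ' j := fun j => by
      show 0 < 3 / 4 * ((1:ℝ) / 2) ^ (a (σ j))
      positivity
    have htend : Tendsto ρ' atTop (𝓝 0) := by
      have h1 : Tendsto (fun j : ℕ => ((1:ℝ) / 2) ^ j) atTop (𝓝 0) :=
        tendsto_pow_atTop_nhds_zero_of_lt_one (by norm_num) (by norm_num)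
      have h2 := (h1.comp (hamono.comp hσ).tendsto_atTop).const_mul (3 / 4 : ℝ)
      rw [mul_zero] at h2
      exact h2
    have hae := hT ρ' n Ψ hpos htend hlim
    set U : ℕ → Set ℂ := fun m => interior {η : ℂ | ∀ j ≥ m, T ((ρ' j : ℂ) * η)} with hU
    have hUmono : Monotone U := by
      intro m m' hmm
      apply interior_mono
      intro η hη j hj
      exact hη j (hmm.trans hj)
    have hanti : Antitone (fun m => ball (0 : ℂ) 1 \ U m) := fun m m' hmm =>
      sdiff_subset_sdiff_right (hUmono hmm)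
    have hnull : volume (⋂ m, (ball (0 : ℂ) 1 \ U m)) = 0 := by
      refine measure_mono_null ?_ (ae_iff.1 hae)
      intro η hη hcon
      rw [mem_iInter] at hη
      have h1 := hcon (hη 0).1
      rw [eventually_prod_iff] at h1
      obtain ⟨pa, hpa, pb, hpb, hT'⟩ := h1
      obtain ⟨m, hm⟩ := eventually_atTop.1 hpa
      apply (hη m).2
      rw [hU, mem_interior_iff_mem_nhds]
      filter_upwards [hpb] with η' hη' j hj
      exact hT' (hm j hj) hη'
    have htm : Tendsto (fun m => volume (ball (0 : ℂ) 1 \ U m)) atTop (𝓝 0) := by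
      rw [← hnull]
      refine tendsto_measure_iInter_atTop (fun m => ?_) hanti ⟨0, ?_⟩
      · exact (measurableSet_ball.diff isOpen_interior.measurableSet).nullMeasurableSet
      · exact ne_top_of_le_ne_top (measure_ball_lt_top (x := (0:ℂ)) (r := 1)).ne
          (measure_mono sdiff_subset)
    obtain ⟨m, hm⟩ := (htm.eventually (gt_mem_nhds hε)).exists
    have h2 : ε ≤ volume (ball (0 : ℂ) 1 ∩ {η : ℂ | ¬ T ((rad (a (σ m)) : ℂ) * η)}) :=
      by
      have := (hamem (σ m)).1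
      rwa [hA] at this
    refine absurd (h2.trans (measure_mono ?_)) (not_le.2 hm)
    rintro η ⟨hη1, hη2⟩
    refine ⟨hη1, fun hη3 => hη2 ?_⟩
    have h3 := interior_subset hη3
    exact h3 m le_rfl
  obtain ⟨j1, hj1⟩ := hfin.bddAbove
  refine ⟨max j0 (j1 + 1), fun J => le_trans ?_ (hj0 J)⟩
  refine Nat.cast_le.2 (Finset.card_le_card ?_)
  intro j hj
  obtain ⟨hjJ, hj3, hj4⟩ := Finset.mem_filter.1 hj
  refine Finset.mem_filter.2 ⟨hjJ, (le_max_left _ _).trans hj3, fun hgood => ?_⟩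
  have h5 : j ≤ j1 := hj1 ⟨hj4, hgood⟩
  have h6 : j1 + 1 ≤ j := (le_max_right _ _).trans hj3
  omega

end Pool.Agent.H44.LD
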