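import Pool.Agent.H44.LD.LDefs
import Pool.Agent.H91.CE.SELE

/-!
# Module PREN: preimages of null sets

PROOF. `Ψ` is analytic on `ball 0 1` and not constant, so `Ψ'` is not identically zero there (otherwise constant: `ball` is convex) and `{η ∈ ball 0 1 | deriv Ψ η = 0}` is countable (`SELE_fib` in H91/CE/SELE applied to `deriv Ψ`, or isolated zeros), hence null.
Near a point `η0` of the ball with `deriv Ψ η0 ≠ 0` there is an open `V ∋ η0` on which `Ψ` has a local inverse: `HasStrictDerivAt.toOpenPartialHomeomorph` / `HasStrictDerivAt.localInverse` with derivative `(Ψ' η)⁻¹`, differentiable near; so `{η ∈ V | Ψ η ∈ S}`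
is contained in the image of (a part of) the null set `S` under a map differentiable (over `ℝ`) on it: null by `addHaar_image_eq_zero_of_differentiableOn_of_addHaar_eq_zero`.
Countably many such `V` cover (`TopologicalSpace.countable_cover_nhdsWithin` or `measure_null_of_locally_null`: `measure_null_of_locally_null : (∀ x ∈ s, ∃ u ∈ 𝓝[s] x, μ u = 0) → μ s = 0`). Maybe a lemma of this kind is already in H79, H80, H35 (search `addHaar_image_eq_zero`).
-/

set_option autoImplicit false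

open Filter Topology Polynomial Metric Set MeasureTheory

namespace Pool.Agent.H44.LD

open Pool.Agent.H44.Fatou Pool.Agent.H32.BT Pool.Agent.H79.Eul Pool.Agent.H79.Par
open Pool.Agent.H35.RL Pool.Agent.H35.EX Pool.Agent.H91.CE

private theorem pre_loc {Ψ : ℂ → ℂ} {U : Set ℂ} (hU : IsOpen U) (h : DifferentiableOn ℂ Ψ U) {η0 : ℂ}
    (hη : η0 ∈ U) (hd : deriv Ψ η0 ≠ 0) {S : Set ℂ} (hS : volume S = 0) :
    ∃ V ∈ 𝓝 η0, volume {η : ℂ | η ∈ V ∧ Ψ η ∈ S} = 0 := by
  have hA : AnalyticOnNhd ℂ Ψ U := h.analyticOnNhd hU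
  have hs : HasStrictDerivAt Ψ (deriv Ψ η0) η0 := (hA η0 hη).hasStrictDerivAt
  obtain ⟨e, he⟩ : ∃ e : OpenPartialHomeomorph ℂ ℂ, e = (hs.hasStrictFDerivAt_equiv hd).toOpenPartialHomeomorph Ψ :=
    ⟨_, rfl⟩
  have hes : η0 ∈ e.source := by
    rw [he]
    exact (hs.hasStrictFDerivAt_equiv hd).mem_toOpenPartialHomeomorph_source
  have hcoe : (e : ℂ → ℂ) = Ψ := by
    rw [he]
    exact (hs.hasStrictFDerivAt_equiv hd).toOpenPartialHomeomorph_coe
  have hdc : ContinuousOn (deriv Ψ) U := (hA.deriv).continuousOn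
  have hVo : IsOpen (U ∩ (deriv Ψ) ⁻¹' {0}ᶜ) := hdc.isOpen_inter_preimage hU isOpen_compl_singleton
  refine ⟨e.source ∩ (U ∩ (deriv Ψ) ⁻¹' {0}ᶜ), ?_, ?_⟩
  · exact inter_mem (e.open_source.mem_nhds hes) (hVo.mem_nhds ⟨hη, hd⟩)
  · have hsub : {η : ℂ | η ∈ e.source ∩ (U ∩ (deriv Ψ) ⁻¹' {0}ᶜ) ∧ Ψ η ∈ S} ⊆
        e.symm '' (S ∩ {a | a ∈ e.target ∧ e.symm a ∈ U ∩ (deriv Ψ) ⁻¹' {0}ᶜ}) := by
      rintro η ⟨⟨h1, h2⟩, h3⟩
      have h4 : e.symm (Ψ η) = η := by
        rw [← hcoe]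
        exact e.left_inv h1
      refine ⟨Ψ η, ⟨h3, ?_, ?_⟩, h4⟩
      · rw [← hcoe]
        exact e.map_source h1
      · rw [h4]
        exact h2
    refine measure_mono_null hsub ?_
    refine addHaar_image_eq_zero_of_differentiableOn_of_addHaar_eq_zero volume ?_
      (measure_mono_null inter_subset_left hS)
    rintro a ⟨-, ha1, ha2⟩
    have h5 : HasDerivAt e (deriv Ψ (e.symm a)) (e.symm a) := by
      rw [hcoe]
      exact ((h.differentiableAt (hU.mem_nhds ha2.1))).hasDerivAt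
    have h6 := e.hasDerivAt_symm ha1 ha2.2 h5
    exact (h6.differentiableAt.restrictScalars ℝ).differentiableWithinAt

theorem pre_null {Ψ : ℂ → ℂ} (h : DifferentiableOn ℂ Ψ (ball 0 1))
    (hnc : ¬ ∀ η ∈ ball (0 : ℂ) 1, Ψ η = Ψ 0) {S : Set ℂ} (hS : volume S = 0) :
    volume {η : ℂ | η ∈ ball (0 : ℂ) 1 ∧ Ψ η ∈ S} = 0 := by
  have hA : AnalyticOnNhd ℂ Ψ (ball 0 1) := h.analyticOnNhd isOpen_ball
  have hZ : {η : ℂ | η ∈ ball (0 : ℂ) 1 ∧ deriv Ψ η = 0}.Countable := by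
    by_cases hc : ∀ η ∈ ball (0 : ℂ) 1, deriv Ψ η = deriv Ψ 0
    · by_cases h0 : deriv Ψ 0 = 0
      · exfalso
        apply hnc
        intro η hη
        have h1 : ∀ x ∈ ball (0 : ℂ) 1, HasDerivWithinAt Ψ 0 (ball (0 : ℂ) 1) x := by
          intro x hx
          have h2 := (h.differentiableAt (isOpen_ball.mem_nhds hx)).hasDerivAt
          rw [hc x hx, h0] at h2
          exact h2.hasDerivWithinAt
        have h3 := (convex_ball (0 : ℂ) 1).norm_image_sub_le_of_norm_hasDerivWithin_le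
          (C := 0) h1 (fun x _ => by simp) (mem_ball_self one_pos) hη
        rw [zero_mul] at h3
        exact sub_eq_zero.1 (norm_le_zero_iff.1 h3)
      · have h1 : {η : ℂ | η ∈ ball (0 : ℂ) 1 ∧ deriv Ψ η = 0} = ∅ := by
          ext η
          simp only [mem_ofPred_eq, mem_empty_iff_false, iff_false, not_and]
          intro hη h2
          exact h0 ((hc η hη).symm.trans h2)
        rw [h1]
        exact countable_empty
    · exact SELE_fib (hA.deriv.differentiableOn) hc 0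
  have hsub : {η : ℂ | η ∈ ball (0 : ℂ) 1 ∧ Ψ η ∈ S} ⊆
      {η : ℂ | η ∈ ball (0 : ℂ) 1 ∧ deriv Ψ η = 0} ∪
      {η : ℂ | (η ∈ ball (0 : ℂ) 1 ∧ Ψ η ∈ S) ∧ deriv Ψ η ≠ 0} := by
    rintro η ⟨h1, h2⟩
    by_cases h3 : deriv Ψ η = 0
    · exact Or.inl ⟨h1, h3⟩
    · exact Or.inr ⟨⟨h1, h2⟩, h3⟩
  refine measure_mono_null hsub (measure_union_null (hZ.measure_zero _) ?_)
  refine measure_null_of_locally_null _ fun x hx => ?_
  obtain ⟨V, hV, hV0⟩ := pre_loc isOpen_ball h hx.1.1 hx.2 hS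
  refine ⟨_, inter_mem_nhdsWithin _ hV, measure_mono_null ?_ hV0⟩
  rintro η ⟨h1, h2⟩
  exact ⟨h2, h1.1.2⟩

end Pool.Agent.H44.LD
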