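import Pool.Agent.H44.LD.LDefs
import Pool.Agent.H91.CE.CORE
import Pool.Agent.H44.LD.PREN

/-!
# Module BRATT: almost every parameter of the limit captures the branch

PROOF. `pre_null` with `S = {z | ¬ Basin v0 z}` (`hW`): for a.e. `η ∈ ball 0 1` the point `Ψ η` is in the basin, and `RobDir v0 (η ^ M • v)` (`hrob`); fix such an `η`. `RobDir` at `z = Ψ η`:
`∀ᶠ y in flt (η ^ M • v) ×ˢ 𝓝 (Ψ η), Att (Rf (pv v0 y.1)) y.2`. Compose with `w ↦ (((w.2) ^ M • v, (ρ w.1) ^ M), g (n w.1) (ρ w.1 * w.2))`, which tends to this filter along `atTop ×ˢ 𝓝 η` (`hL.lim`; `(w.2)^M • v → η^M • v`; `(ρ j)^M → 0` from the right, as in `ce_core`, `hτl`).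
`pv v0 (w.2^M • v, ρ^M) = v0 + (ρ * w.2)^M • v` (`mul_pow`, `Complex.coe_smul`, as `hpv` there). Then `pull_one` twice (as `k4` and the following lines in `ce_core`): first from time `n w.1` back to `it .. k (b ..)` with `hL.hok`
(`‖ρ j * w.2‖ < ρ j` for `w.2` near `η` in the ball), then `k` steps back to `b (..)`: the denominators `ev (v0 + s^M • v).2 (it .. i (b s)) ≠ 0`, `i < k`, for small `s` by `diff_n` (`h5`, `h5'` there); coprime degree `d` near `v0`: `cop_near`.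
-/

set_option autoImplicit false

open Filter Topology Polynomial Metric Set MeasureTheory

namespace Pool.Agent.H44.LD

open Pool.Agent.H44.Fatou Pool.Agent.H32.BT Pool.Agent.H79.Eul Pool.Agent.H79.Par
open Pool.Agent.H35.RL Pool.Agent.H35.EX Pool.Agent.H91.CE

theorem br_att {d : ℕ} (hd : 2 ≤ d) {v0 v : E d} (h0 : Chart0 v0) {K : Set ℂ} (hK : Inv v0 K)
    (hW : volume {z : ℂ | ¬ Basin v0 z} = 0) {c : ℂ} {M k : ℕ} (hM : 1 ≤ M)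
    (hcK : ∀ j, it v0 j c ∈ K) {b : ℂ → ℂ} {ρb : ℝ} (hρb : 0 < ρb)
    (hb : DifferentiableOn ℂ b (ball 0 ρb)) (hb0 : b 0 = c)
    (hrob : ∀ᵐ η : ℂ, RobDir v0 (η ^ M • v)) {ρ : ℕ → ℝ} {n : ℕ → ℕ} {Ψ : ℂ → ℂ}
    (hρ : ∀ j, 0 < ρ j) (hρ0 : Tendsto ρ atTop (𝓝 0))
    (hL : Lim1 (fun n s => it (v0 + s ^ M • v) n (it (v0 + s ^ M • v) k (b s)))
      (fun n s => ev (v0 + s ^ M • v).2 (it (v0 + s ^ M • v) n (it (v0 + s ^ M • v) k (b s))) ≠ 0)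
      ρ n Ψ) :
    ∀ᵐ η : ℂ, η ∈ ball (0 : ℂ) 1 → ∀ᶠ w : ℕ × ℂ in atTop ×ˢ 𝓝 η,
      Att (Rf (v0 + ((ρ w.1 : ℂ) * w.2) ^ M • v)) ((b ((ρ w.1 : ℂ) * w.2) : ℂ) : OnePoint ℂ) := by
  have hcop := h0.1
  have hdeg := h0.2.1
  have hden : ∀ i, ev v0.2 (it v0 i c) ≠ 0 := fun i => hK.den _ (hcK i)
  have hS := pre_null hL.diff hL.ncst hW
  have hS1 : ∀ᵐ η : ℂ, ¬ (η ∈ ball (0 : ℂ) 1 ∧ Ψ η ∈ {z : ℂ | ¬ Basin v0 z}) :=
    measure_eq_zero_iff_ae_notMem.1 hS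
  filter_upwards [hS1, hrob] with η hη1 hη2 hηb
  have hB : Basin v0 (Ψ η) := by
    by_contra h
    exact hη1 ⟨hηb, h⟩
  have h2 := hη2 _ hB
  have hfst : Tendsto (fun w : ℕ × ℂ => w.1) (atTop ×ˢ 𝓝 η) atTop := tendsto_fst
  have hsnd : Tendsto (fun w : ℕ × ℂ => w.2) (atTop ×ˢ 𝓝 η) (𝓝 η) := tendsto_snd
  obtain ⟨τ, hτ⟩ : ∃ τ : ℕ × ℂ → E d × ℝ, ∀ w, τ w = (w.2 ^ M • v, ρ w.1 ^ M) := ⟨_, fun _ => rfl⟩
  have hτl : Tendsto τ (atTop ×ˢ 𝓝 η) (flt (η ^ M • v)) := by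
    have h3 : Tendsto (fun w : ℕ × ℂ => ρ w.1 ^ M) (atTop ×ˢ 𝓝 η) (𝓝[>] 0) := by
      rw [tendsto_nhdsWithin_iff]
      constructor
      · have h4 := (hρ0.comp hfst).pow M
        rwa [zero_pow (by omega : M ≠ 0)] at h4
      · exact Eventually.of_forall fun w => pow_pos (hρ w.1) M
    have h4 : Tendsto (fun w : ℕ × ℂ => w.2 ^ M • v) (atTop ×ˢ 𝓝 η) (𝓝 (η ^ M • v)) :=
      (hsnd.pow M).smul_const v
    have h5 : Tendsto (fun w : ℕ × ℂ => ((w.2 ^ M • v, ρ w.1 ^ M) : E d × ℝ)) (atTop ×ˢ 𝓝 η)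
        (𝓝 (η ^ M • v) ×ˢ 𝓝[>] 0) := h4.prodMk h3
    exact h5.congr fun w => (hτ w).symm
  have hpv : ∀ w, pv v0 (τ w) = v0 + ((ρ w.1 : ℂ) * w.2) ^ M • v := by
    intro w
    rw [hτ]
    unfold pv
    simp only
    congr 1
    rw [mul_pow, mul_smul, ← Complex.ofReal_pow, Complex.coe_smul]
  have hwl : Tendsto (fun w => pv v0 (τ w)) (atTop ×ˢ 𝓝 η) (𝓝 v0) := (pv_lim v0 _).comp hτl
  have hsl : Tendsto (fun w : ℕ × ℂ => (ρ w.1 : ℂ) * w.2) (atTop ×ˢ 𝓝 η) (𝓝 0) := by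
    have h3 : Tendsto (fun w : ℕ × ℂ => (ρ w.1 : ℂ)) (atTop ×ˢ 𝓝 η) (𝓝 ((0 : ℝ) : ℂ)) :=
      (Complex.continuous_ofReal.tendsto 0).comp (hρ0.comp hfst)
    have h4 := h3.mul hsnd
    rwa [Complex.ofReal_zero, zero_mul] at h4
  have h3 : Tendsto (fun w : ℕ × ℂ => (τ w, it (v0 + ((ρ w.1 : ℂ) * w.2) ^ M • v) (n w.1)
      (it (v0 + ((ρ w.1 : ℂ) * w.2) ^ M • v) k (b ((ρ w.1 : ℂ) * w.2))))) (atTop ×ˢ 𝓝 η)
      (flt (η ^ M • v) ×ˢ 𝓝 (Ψ η)) := hτl.prodMk (hL.lim η hηb)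
  have h4 := h3.eventually h2
  have hbd' : ∀ᶠ s in 𝓝 (0 : ℂ), DifferentiableAt ℂ b s := by
    filter_upwards [isOpen_ball.mem_nhds (mem_ball_self hρb)] with s hs
    exact hb.differentiableAt (isOpen_ball.mem_nhds hs)
  have h5 := diff_n (v0 := v0) (v := v) hM (w := b) k
    (fun i' _ => by rw [hb0]; exact hden i') hbd'
  have h5' : ∀ᶠ s in 𝓝 (0 : ℂ), ∀ i' < k,
      ev (v0 + s ^ M • v).2 (it (v0 + s ^ M • v) i' (b s)) ≠ 0 := by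
    filter_upwards [h5] with s hs
    exact hs.2
  have h6 := hwl.eventually (cop_near hcop hdeg (by omega))
  have h7 := hsnd.eventually (isOpen_ball.mem_nhds hηb)
  filter_upwards [h4, hsl.eventually h5', h6, h7] with w k1 k2 k3 k5
  have hwn : ‖w.2‖ < 1 := mem_ball_zero_iff.1 k5
  have hsj : (ρ w.1 : ℂ) * w.2 ∈ ball (0 : ℂ) (ρ w.1) := by
    rw [mem_ball_zero_iff, norm_mul, Complex.norm_real, Real.norm_of_nonneg (hρ w.1).le]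
    calc ρ w.1 * ‖w.2‖ < ρ w.1 * 1 := mul_lt_mul_of_pos_left hwn (hρ w.1)
      _ = ρ w.1 := mul_one _
  rw [hpv] at k3
  have k1' : Att (Rf (v0 + ((ρ w.1 : ℂ) * w.2) ^ M • v))
      ((it (v0 + ((ρ w.1 : ℂ) * w.2) ^ M • v) (n w.1)
        (it (v0 + ((ρ w.1 : ℂ) * w.2) ^ M • v) k (b ((ρ w.1 : ℂ) * w.2))) : ℂ) : OnePoint ℂ) := by
    rw [← hpv]
    rw [← hpv] at k1
    exact k1
  have k4 : Att (Rf (v0 + ((ρ w.1 : ℂ) * w.2) ^ M • v))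
      ((it (v0 + ((ρ w.1 : ℂ) * w.2) ^ M • v) k (b ((ρ w.1 : ℂ) * w.2)) : ℂ) : OnePoint ℂ) :=
    pull_one k3.1 (n := n w.1) (fun i' hi' => hL.hok w.1 i' hi' _ hsj) k1'
  exact pull_one k3.1 (n := k) (fun i' hi' => k2 i' hi') k4

end Pool.Agent.H44.LD
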