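import Pool.Agent.H44.LD.LDefs
import Pool.Agent.H91.CE.KAPN
import Pool.Agent.H91.CE.RUNP
import Pool.Agent.H91.CE.CRIT1
import Pool.Agent.H91.CE.BRANCH

/-!
# Module CERUN: the run of a critical branch

PROOF: the private theorem `core_run` of H91/CE/CORE (with `strt v0 v M k b s = it (v0 + s ^ M • v) k (b s)` written out): copy it.
-/

set_option autoImplicit false

open Filter Topology Polynomial Metric Set MeasureTheory

namespace Pool.Agent.H44.LD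

open Pool.Agent.H44.Fatou Pool.Agent.H32.BT Pool.Agent.H79.Eul Pool.Agent.H79.Par
open Pool.Agent.H35.RL Pool.Agent.H35.EX Pool.Agent.H91.CE

theorem core_run1 {d : ℕ} {v0 v : E d} {K : Set ℂ} (hK : Inv v0 K) {c : ℂ} {m M k : ℕ}
    (hM : 1 ≤ M) (hk : 1 ≤ k) (hcK : ∀ j, it v0 j c ∈ K) (hG : Gr v0 (it v0 k c)) {b : ℂ → ℂ}
    {ρ : ℝ} (hρ : 0 < ρ) (hb : DifferentiableOn ℂ b (ball 0 ρ)) (hb0 : b 0 = c)
    (hbC : ∃ C : ℝ, ∀ s ∈ ball (0 : ℂ) ρ, ‖b s - c‖ ^ (m + 1) ≤ C * ‖s‖ ^ (M + 1))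
    (hfl : ∃ C' : ℝ, ∀ᶠ z in 𝓝 c, ‖wv v0 z‖ ≤ C' * ‖z - c‖ ^ m)
    (hκ : kapE v0 v (fun j => it v0 j c) k ≠ 0) :
    ∃ ρ0 r1 L : ℝ, Run (fun n s => it (v0 + s ^ M • v) n (it (v0 + s ^ M • v) k (b s)))
      (fun n s => ev (v0 + s ^ M • v).2 (it (v0 + s ^ M • v) n (it (v0 + s ^ M • v) k (b s))) ≠ 0)
      M ρ0 r1 L := by
  have hden : ∀ i, ev v0.2 (it v0 i c) ≠ 0 := fun i => hK.den _ (hcK i)
  have hball : ball (0 : ℂ) ρ ∈ 𝓝 (0 : ℂ) := ball_mem_nhds _ hρ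
  have hbd : ∀ᶠ s in 𝓝 (0 : ℂ), DifferentiableAt ℂ b s := by
    filter_upwards [isOpen_ball.mem_nhds (mem_ball_self hρ)] with s hs
    exact hb.differentiableAt (isOpen_ball.mem_nhds hs)
  have h0M : (0 : ℂ) ^ M = 0 := zero_pow (by omega)
  have hs0 : (fun s => it (v0 + s ^ M • v) k (b s)) 0 = it v0 k c := by
    simp only
    rw [h0M, zero_smul, add_zero, hb0]
  refine run_par hK hM (x := it v0 k c) (α := XX v0 v k c) (hcK k) hG ?_ hs0 ?_ ?_
  · have h1 := diff_n (v0 := v0) (v := v) hM (w := b) k (fun i _ => by rw [hb0]; exact hden i) hbd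
    filter_upwards [h1] with s hs
    exact hs.1
  · refine crit_start hM hk (fun i _ => hden i) (hbd.self_of_nhds.continuousAt) hb0 ?_ hfl
    obtain ⟨C, hC⟩ := hbC
    refine ⟨C, ?_⟩
    filter_upwards [hball] with s hs
    exact hC s hs
  · intro hcon
    apply hκ
    unfold kapE
    rw [← hcon]
    congr 1
    refine tsum_congr fun i => ?_
    show xi v0 v (it v0 (k + i) c) / _ = xi v0 v (it v0 i (it v0 k c)) / _
    rw [← it_add, add_comm k i]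

end Pool.Agent.H44.LD
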