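import Pool.Agent.H44.LD.LDefs

/-!
# Module DZL: sets of density zero

PROOFS. `dz_mono`: `j0' = max j0 j1`. `dz_union`: given `δ`, use `δ / (card ι + 1)` for every `B i` and `j0 = sup` of the `j0 i`; the filter for the union is contained in the union of the filters (`Finset.card_biUnion_le`). `dz_two` is the case of two sets (prove it directly,
`dz_union` may use it by induction).
-/

set_option autoImplicit false

open Filter Topology Polynomial Metric Set MeasureTheory

namespace Pool.Agent.H44.LD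

open Pool.Agent.H44.Fatou Pool.Agent.H32.BT Pool.Agent.H79.Eul Pool.Agent.H79.Par
open Pool.Agent.H35.RL Pool.Agent.H35.EX Pool.Agent.H91.CE

theorem dz_mono {A B : Set ℕ} (h : ∃ j1 : ℕ, ∀ j ≥ j1, j ∈ A → j ∈ B) (hB : DZ B) : DZ A := by
  classical
  obtain ⟨j1, h1⟩ := h
  intro δ hδ
  obtain ⟨j0, h0⟩ := hB δ hδ
  refine ⟨max j0 j1, fun J => le_trans ?_ (h0 J)⟩
  have h2 := Finset.card_le_card (s := (Finset.range J).filter (fun j => max j0 j1 ≤ j ∧ j ∈ A))
    (t := (Finset.range J).filter (fun j => j0 ≤ j ∧ j ∈ B)) (by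
      intro j hj
      rw [Finset.mem_filter] at hj ⊢
      exact ⟨hj.1, (le_max_left _ _).trans hj.2.1, h1 j ((le_max_right _ _).trans hj.2.1) hj.2.2⟩)
  exact_mod_cast h2

theorem dz_union {ι : Type} [Finite ι] {B : ι → Set ℕ} (h : ∀ i, DZ (B i)) : DZ (⋃ i, B i) := by
  classical
  have := Fintype.ofFinite ι
  intro δ hδ
  have hc : (0 : ℝ) < (Fintype.card ι : ℝ) + 1 := by positivity
  choose j0 h0 using fun i => h i (δ / ((Fintype.card ι : ℝ) + 1)) (by positivity)
  refine ⟨Finset.univ.sup j0, fun J => ?_⟩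
  have hsub : (Finset.range J).filter (fun j => Finset.univ.sup j0 ≤ j ∧ j ∈ ⋃ i, B i) ⊆
      Finset.univ.biUnion (fun i => (Finset.range J).filter (fun j => j0 i ≤ j ∧ j ∈ B i)) := by
    intro j hj
    rw [Finset.mem_filter, mem_iUnion] at hj
    obtain ⟨h1, h2, i, h3⟩ := hj
    rw [Finset.mem_biUnion]
    exact ⟨i, Finset.mem_univ i, Finset.mem_filter.2 ⟨h1, (Finset.le_sup (Finset.mem_univ i)).trans h2, h3⟩⟩
  have h1 := (Finset.card_le_card hsub).trans Finset.card_biUnion_le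
  have h2 : (((Finset.range J).filter
      (fun j => Finset.univ.sup j0 ≤ j ∧ j ∈ ⋃ i, B i)).card : ℝ) ≤
      ∑ i : ι, (((Finset.range J).filter (fun j => j0 i ≤ j ∧ j ∈ B i)).card : ℝ) := by
    exact_mod_cast h1
  refine h2.trans ((Finset.sum_le_sum fun i _ => h0 i J).trans ?_)
  rw [Finset.sum_const, Finset.card_univ, nsmul_eq_mul]
  have h3 : (Fintype.card ι : ℝ) * (δ / ((Fintype.card ι : ℝ) + 1)) ≤ δ := by
    rw [mul_div_assoc', div_le_iff₀ hc]
    nlinarith
  calc (Fintype.card ι : ℝ) * (δ / ((Fintype.card ι : ℝ) + 1) * (J + 1))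
      = (Fintype.card ι : ℝ) * (δ / ((Fintype.card ι : ℝ) + 1)) * (J + 1) := by ring
    _ ≤ δ * (J + 1) := mul_le_mul_of_nonneg_right h3 (by positivity)

end Pool.Agent.H44.LD
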