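import Pool.Agent.H44.LD.LDefs
import Pool.Agent.H44.LD.ABSD
import Pool.Agent.H44.LD.CERUN
import Pool.Agent.H44.LD.BRATT
import Pool.Agent.H44.LD.DZL

/-!
# Module CELINE: density on almost every line

PROOF (compare `ce_core`). `hG` gives `k` with `Gr v0 (it v0 k c)`, and `1 ≤ k` since `wv v0 c = 0` (`gr_ne`, as `hCE` in `ce_core`). `hne : ¬ ∀ z, wv v0 z = 0` (`wv_ne`). `crit_branch hw hne` gives `m` and the branches; `M = m`.
For a.e. `v`: `kapE v0 v (fun j => it v0 j c) k ≠ 0` (`kap_ne` with `hbd`: a co-null set of the plane is dense; `kap_null`), `Dw v0 v c ≠ 0` (`dw_null`), `∀ᵐ η, RobDir v0 (η ^ M • v)` (`rob_line (rob_null ..) M`). Fix such a `v` and `ε`.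
The branches `b i`, `ρb`, `Rb` of `crit_branch`. For every `i`: `core_run1` gives the run; `‖it v0 n (it v0 k c)‖ ≤ R` since `it v0 (k + n) c ∈ K` (at `s = 0`: `0 ^ M = 0`, `b i 0 = c`); `abs_dens` with `T s = Att (Rf (v0 + s^M • v)) (b i s)` and `br_att` give
`DZ {j | ε' ≤ volume (ball 0 1 ∩ {η | ¬ T_i (rad j * η)})}` for `ε' = ε / (m + 1)` (`ε = ⊤`: use `1` instead). For large `j` (all `η ∈ ball 0 1`; `s = rad j * η` is small): the zeros of `wv (v0 + s^M • v)` in `closedBall c δ` are in `ball c Rb` (the compact set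
`closedBall c δ \ ball c (min Rb δ)` has no zero of `wv v0` by `hone`, so none of `wv w` for `w` near `v0`: `ev_compact`, `wv_cont`, as in `hyp_near`), hence equal to some `b i s`; so the bad set is contained in the union over `i` of the bad sets, `ε ≤ ∑ ..` implies `ε' ≤ ..` for some `i`. `dz_mono`, `dz_union`.
-/

set_option autoImplicit false

open Filter Topology Polynomial Metric Set MeasureTheory

namespace Pool.Agent.H44.LD

open Pool.Agent.H44.Fatou Pool.Agent.H32.BT Pool.Agent.H79.Eul Pool.Agent.H79.Par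
open Pool.Agent.H35.RL Pool.Agent.H35.EX Pool.Agent.H91.CE

theorem ce_line {d : ℕ} (hd : 2 ≤ d) {v0 : E d} (h0 : Chart0 v0) {K : Set ℂ} (hK : Inv v0 K)
    (hW : volume {z : ℂ | ¬ Basin v0 z} = 0) {c : ℂ} (hw : wv v0 c = 0)
    (hcK : ∀ j, it v0 j c ∈ K) (hG : ∃ m : ℕ, Gr v0 (it v0 m c)) {δ : ℝ} (hδ : 0 < δ)
    (hone : ∀ z ∈ closedBall c δ, wv v0 z = 0 → z = c) :
    ∃ M : ℕ, 1 ≤ M ∧ ∀ᵐ v : E d, ∀ ε : ENNReal, 0 < ε →
      DZ {j : ℕ | ε ≤ volume (ball (0 : ℂ) 1 ∩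
        {η : ℂ | ¬ AC c δ (v0 + ((rad j : ℂ) * η) ^ M • v)})} := by
  classical
  have hcop := h0.1
  have hdeg := h0.2.1
  have hbd : Dense {z : ℂ | Basin v0 z} :=
    Measure.dense_of_ae (μ := (volume : Measure ℂ)) (ae_iff.2 hW)
  have hden : ∀ i, ev v0.2 (it v0 i c) ≠ 0 := fun i => hK.den _ (hcK i)
  have horb : ∀ j, Orb v0 (fun j => it v0 j c) j := fun j i _ => ⟨hden i, rfl⟩
  obtain ⟨k, hkG⟩ := hG
  have hk1 : 1 ≤ k := by
    by_contra hcon
    have hk0 : k = 0 := by omega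
    subst hk0
    apply gr_ne hkG 1
    simp [trD, it, hw]
  have hzf : {c : ℂ | wv v0 c = 0}.Finite := wv_ne hd hcop hdeg
  have hne : ¬ ∀ z, wv v0 z = 0 := by
    intro h
    have h2 : {c : ℂ | wv v0 c = 0} = Set.univ := by
      ext z
      simp [h z]
    rw [h2] at hzf
    exact Set.infinite_univ hzf
  obtain ⟨m, hm1, hmfl, hmbr⟩ := crit_branch hw hne
  refine ⟨m, hm1, ?_⟩
  have hκne := kap_ne hd h0 hK (x := fun j => it v0 j c) horb hcK hw hk1 hkG hbd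
  have hκnull := kap_null hK (x := fun j => it v0 j c) horb (hcK _) hkG hκne
  have a1 : ∀ᵐ v : E d, kapE v0 v (fun j => it v0 j c) k ≠ 0 :=
    measure_eq_zero_iff_ae_notMem.1 hκnull
  have a2 : ∀ᵐ v : E d, Dw v0 v c ≠ 0 :=
    measure_eq_zero_iff_ae_notMem.1 (dw_null (by omega) (hden 0))
  have a3 : ∀ᵐ v : E d, ∀ᵐ η : ℂ, RobDir v0 (η ^ m • v) := rob_line (rob_null hd hcop hdeg) m
  filter_upwards [a1, a2, a3] with v hv1 hv2 hv3
  intro ε hε
  obtain ⟨ρb, Rb, b, hρb, hRb, hb, huniq⟩ := hmbr v hv2 m hm1 dvd_rfl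
  obtain ⟨ε', hε'0, hε'⟩ := ENNReal.exists_nnreal_pos_mul_lt (a := (m : ENNReal))
    (ENNReal.natCast_ne_top m) hε.ne'
  have h0M : (0 : ℂ) ^ m = 0 := zero_pow (by omega)
  obtain ⟨Rk, hRk⟩ := hK.compact.isBounded.exists_norm_le
  have hDZ : ∀ i : Fin m, DZ {j : ℕ | (ε' : ENNReal) ≤ volume (ball (0 : ℂ) 1 ∩
      {η : ℂ | ¬ Att (Rf (v0 + ((rad j : ℂ) * η) ^ m • v))
        ((b i ((rad j : ℂ) * η) : ℂ) : OnePoint ℂ)})} := by
    intro i
    obtain ⟨ρ0, r1, L, hrun⟩ := core_run1 hK hm1 hk1 hcK hkG hρb (hb i).1 (hb i).2.1 (hb i).2.2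
      hmfl hv1
    refine abs_dens hrun (R := Rk)
      (T := fun s => Att (Rf (v0 + s ^ m • v)) ((b i s : ℂ) : OnePoint ℂ)) ?_ ?_
      (by exact_mod_cast hε'0)
    · intro n
      rw [h0M, zero_smul, add_zero, (hb i).2.1, ← it_add]
      exact hRk _ (hcK _)
    · intro ρ n Ψ hρ hρ0 hL
      exact br_att hd h0 hK hW hm1 hcK hρb (hb i).1 (hb i).2.1 hv3 hρ hρ0 hL
  refine dz_mono ?_ (dz_union hDZ)
  -- zeros of `wv` stay near `c`
  have hcomp : IsCompact (closedBall c δ \ ball c Rb) := (isCompact_closedBall c δ).diff isOpen_ball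
  have hloc : ∀ z ∈ closedBall c δ \ ball c Rb, ∀ᶠ y : E d × ℂ in 𝓝 v0 ×ˢ 𝓝 z,
      wv y.1 y.2 ≠ 0 := by
    intro z hz
    have hz0 : wv v0 z ≠ 0 := by
      intro h
      apply hz.2
      rw [hone z hz.1 h]
      exact mem_ball_self hRb
    rw [← nhds_prod_eq]
    have h1 := (wv_cont (d := d)).tendsto (v0, z)
    exact h1.eventually_ne hz0
  have hall := ev_compact (p := fun (w : E d) z => wv w z ≠ 0) hcomp hloc
  have hcont : Tendsto (fun s : ℂ => v0 + s ^ m • v) (𝓝 0) (𝓝 v0) := by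
    have h1 : Continuous (fun s : ℂ => v0 + s ^ m • v) := by fun_prop
    have h2 := h1.tendsto 0
    rwa [h0M, zero_smul, add_zero] at h2
  obtain ⟨σ, hσ, hσb⟩ := Metric.eventually_nhds_iff_ball.1
    ((hcont.eventually hall).and (ball_mem_nhds (0 : ℂ) hρb))
  have hrad : Tendsto rad atTop (𝓝 0) := by
    have h1 : Tendsto (fun j : ℕ => (3 / 4 : ℝ) * (1 / 2) ^ j) atTop (𝓝 (3 / 4 * 0)) :=
      (tendsto_pow_atTop_nhds_zero_of_lt_one (by norm_num) (by norm_num)).const_mul _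
    rw [mul_zero] at h1
    exact h1
  obtain ⟨j1, hj1⟩ := Filter.eventually_atTop.1 (hrad.eventually (gt_mem_nhds hσ))
  refine ⟨j1, fun j hj hjA => ?_⟩
  have hrj0 : 0 ≤ rad j := by
    unfold rad
    positivity
  by_contra hcon
  rw [mem_iUnion] at hcon
  push Not at hcon
  have hlt : ∀ i : Fin m, volume (ball (0 : ℂ) 1 ∩
      {η : ℂ | ¬ Att (Rf (v0 + ((rad j : ℂ) * η) ^ m • v))
        ((b i ((rad j : ℂ) * η) : ℂ) : OnePoint ℂ)}) < ε' := fun i => not_le.1 (hcon i)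
  have hsub : ball (0 : ℂ) 1 ∩ {η : ℂ | ¬ AC c δ (v0 + ((rad j : ℂ) * η) ^ m • v)} ⊆
      ⋃ i : Fin m, ball (0 : ℂ) 1 ∩
      {η : ℂ | ¬ Att (Rf (v0 + ((rad j : ℂ) * η) ^ m • v))
        ((b i ((rad j : ℂ) * η) : ℂ) : OnePoint ℂ)} := by
    rintro η ⟨hη, hη2⟩
    have hs : (rad j : ℂ) * η ∈ ball (0 : ℂ) σ := by
      rw [mem_ball_zero_iff, norm_mul, Complex.norm_real, Real.norm_of_nonneg hrj0]
      have h1 : ‖η‖ ≤ 1 := (mem_ball_zero_iff.1 hη).le
      calc rad j * ‖η‖ ≤ rad j * 1 := mul_le_mul_of_nonneg_left h1 hrj0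
        _ < σ := by rw [mul_one]; exact hj1 j hj
    obtain ⟨hs1, hs2⟩ := hσb _ hs
    by_contra hcon3
    rw [mem_iUnion] at hcon3
    push Not at hcon3
    apply hη2
    intro z hz hwz
    have hzb : z ∈ ball c Rb := by
      by_contra hcon4
      exact hs1 z ⟨hz, hcon4⟩ hwz
    obtain ⟨i, hzi⟩ := huniq _ hs2 z hzb hwz
    rw [hzi]
    by_contra hcon5
    exact hcon3 i ⟨hη, hcon5⟩
  have h1 : volume (ball (0 : ℂ) 1 ∩ {η : ℂ | ¬ AC c δ (v0 + ((rad j : ℂ) * η) ^ m • v)}) ≤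
      (m : ENNReal) * ε' := by
    refine (measure_mono hsub).trans ((measure_iUnion_fintype_le _ _).trans ?_)
    refine (Finset.sum_le_sum fun i _ => (hlt i).le).trans ?_
    rw [Finset.sum_const, Finset.card_univ, Fintype.card_fin, nsmul_eq_mul]
  rw [mul_comm] at hε'
  exact absurd (lt_of_le_of_lt (le_trans hjA h1) hε') (lt_irrefl _)

end Pool.Agent.H44.LD
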