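import Pool.Agent.H44.LD.LDefs

/-!
# Module CESL: Cesàro means

PROOFS (all in `ENNReal`; `ENNReal.tendsto_nhds_zero`: for every `ε > 0` eventually `≤ ε`; `ENNReal.div_le_iff`, `x / J`, `J ≥ 1`).
`ces_of_dz`: given `ε ≠ ⊤`, split the sum at `ε / 2`: `∑_{j<J} q j ≤ J ε/2 + B (j0 + δ (J + 1))` with `δ` such that `B δ` is small; divide by `J`.
`ces_of_tendsto`: bounded and tends to zero: `Filter.Tendsto.cesaro` in `ℝ` after `toReal`, or directly, or by `ces_of_dz` (the set is finite).
`ces_sum`: finite sums of limits, `Finset.sum_comm`, `ENNReal` division distributes (`ENNReal.div_add_div_same`, induction on the finset).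
`ces_sub`: for `J ≥ i0`: `∑_{i<J} p i ≤ i0 B + C ∑_{i<J} q (i / M - a)` and `∑_{i<J} q (i / M - a) ≤ (a + 1) M B' + M ∑_{j<J} q j`: the value `j ≥ 1` is taken by at most `M` indices `i` (`i / M = j + a`, and then `j ≤ i < J`), the value `0` by at most `(a + 1) M` indices.
-/

set_option autoImplicit false

open Filter Topology Polynomial Metric Set MeasureTheory

namespace Pool.Agent.H44.LD

open Pool.Agent.H44.Fatou Pool.Agent.H32.BT Pool.Agent.H79.Eul Pool.Agent.H79.Par
open Pool.Agent.H35.RL Pool.Agent.H35.EX Pool.Agent.H91.CE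

/-- the Cesàro means in real numbers -/
theorem ces_real {q : ℕ → ENNReal} {B : ENNReal} (hB : B ≠ ⊤) (hq : ∀ j, q j ≤ B)
    (h : Tendsto (fun J : ℕ => (∑ j ∈ Finset.range J, (q j).toReal) / (J : ℝ)) atTop (𝓝 0)) :
    Ces q := by
  have h1 : Tendsto (fun J : ℕ => ENNReal.ofReal
      ((∑ j ∈ Finset.range J, (q j).toReal) / (J : ℝ))) atTop (𝓝 0) := by
    have := (ENNReal.continuous_ofReal.tendsto 0).comp h
    rwa [ENNReal.ofReal_zero] at this
  refine h1.congr' ?_
  filter_upwards [eventually_ge_atTop 1] with J hJ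
  have hJ' : (0 : ℝ) < J := by exact_mod_cast hJ
  rw [ENNReal.ofReal_div_of_pos hJ', ENNReal.ofReal_natCast,
    ENNReal.ofReal_sum_of_nonneg (fun _ _ => ENNReal.toReal_nonneg)]
  congr 1
  refine Finset.sum_congr rfl fun j _ => ENNReal.ofReal_toReal ?_
  exact ne_top_of_le_ne_top hB (hq j)

theorem ces_of_dz {q : ℕ → ENNReal} {B : ENNReal} (hB : B ≠ ⊤) (hq : ∀ j, q j ≤ B)
    (h : ∀ ε : ENNReal, 0 < ε → DZ {j | ε ≤ q j}) : Ces q := by
  classical
  refine ces_real hB hq ?_
  set b := B.toReal with hb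
  have hb0 : 0 ≤ b := ENNReal.toReal_nonneg
  have hqb : ∀ j, (q j).toReal ≤ b := fun j => ENNReal.toReal_mono hB (hq j)
  rw [Metric.tendsto_atTop]
  intro e he
  obtain ⟨S, hS⟩ : ∃ S : Set ℕ, S = {j | ENNReal.ofReal (e / 4) ≤ q j} := ⟨_, rfl⟩
  have hDS : DZ S := by
    rw [hS]
    exact h (ENNReal.ofReal (e / 4)) (by rw [ENNReal.ofReal_pos]; positivity)
  obtain ⟨j0, h0⟩ := hDS (e / (4 * (b + 1))) (by positivity)
  obtain ⟨N, hN⟩ := exists_nat_ge (4 * (b * j0 + e) / e + 1)
  refine ⟨N, fun J hJ => ?_⟩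
  have hNJ : (4 * (b * j0 + e) / e + 1 : ℝ) ≤ J := hN.trans (by exact_mod_cast hJ)
  have hpos : 0 ≤ 4 * (b * j0 + e) / e := by positivity
  have hJ' : (0 : ℝ) < J := by linarith
  have hsum : ∑ j ∈ Finset.range J, (q j).toReal ≤
      J * (e / 4) + b * (e / (4 * (b + 1)) * (J + 1)) + b * j0 := by
    have h1 : ∀ j ∈ Finset.range J, (q j).toReal ≤
        e / 4 + (if j0 ≤ j ∧ j ∈ S then b else 0) +
          (if j < j0 then b else 0) := by
      intro j _
      by_cases hj : j < j0
      · rw [if_pos hj, if_neg (by omega)]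
        have := hqb j
        linarith
      · rw [if_neg hj]
        by_cases hj2 : ENNReal.ofReal (e / 4) ≤ q j
        · rw [if_pos ⟨by omega, by rw [hS]; exact hj2⟩]
          have := hqb j
          linarith
        · rw [if_neg (fun h => hj2 (by have := h.2; rwa [hS] at this))]
          push Not at hj2
          have := ENNReal.toReal_le_of_le_ofReal (by positivity) hj2.le
          linarith
    refine (Finset.sum_le_sum h1).trans ?_
    rw [Finset.sum_add_distrib, Finset.sum_add_distrib, Finset.sum_const, Finset.card_range,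
      nsmul_eq_mul, ← Finset.sum_filter, ← Finset.sum_filter, Finset.sum_const, Finset.sum_const,
      nsmul_eq_mul, nsmul_eq_mul]
    have h2 := h0 J
    have h3 : ((Finset.range J).filter (fun j => j < j0)).card ≤ j0 := by
      calc ((Finset.range J).filter (fun j => j < j0)).card ≤ (Finset.range j0).card :=
            Finset.card_le_card (fun j hj => Finset.mem_range.2 (Finset.mem_filter.1 hj).2)
        _ = j0 := Finset.card_range j0
    have h4 : (((Finset.range J).filter (fun j => j < j0)).card : ℝ) ≤ j0 := by exact_mod_cast h3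
    have h5 := mul_le_mul_of_nonneg_right h2 hb0
    have h6 := mul_le_mul_of_nonneg_right h4 hb0
    linarith
  have hnn : 0 ≤ ∑ j ∈ Finset.range J, (q j).toReal :=
    Finset.sum_nonneg fun _ _ => ENNReal.toReal_nonneg
  rw [Real.dist_eq, sub_zero, abs_of_nonneg (by positivity), div_lt_iff₀ hJ']
  have h7 : b * (e / (4 * (b + 1)) * (J + 1)) ≤ e / 4 * (J + 1) := by
    have h8 : b * (e / (4 * (b + 1))) ≤ e / 4 := by
      rw [mul_div_assoc', div_le_div_iff₀ (by positivity) (by norm_num)]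
      nlinarith
    nlinarith
  have h9 : 4 * (b * j0 + e) ≤ e * (J - 1) := by
    have := (div_le_iff₀ he).1 (show 4 * (b * j0 + e) / e ≤ J - 1 by linarith)
    linarith
  nlinarith

theorem ces_of_tendsto {q : ℕ → ENNReal} {B : ENNReal} (hB : B ≠ ⊤) (hq : ∀ j, q j ≤ B)
    (h : Tendsto q atTop (𝓝 0)) : Ces q := by
  refine ces_real hB hq ?_
  have h1 : Tendsto (fun j => (q j).toReal) atTop (𝓝 0) := by
    have := (ENNReal.tendsto_toReal ENNReal.zero_ne_top).comp h
    rwa [ENNReal.toReal_zero] at this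
  have h2 := h1.cesaro
  refine h2.congr fun J => ?_
  rw [div_eq_inv_mul]

theorem ces_sum {ι : Type} (s : Finset ι) {q : ι → ℕ → ENNReal} (h : ∀ i ∈ s, Ces (q i)) :
    Ces (fun j => ∑ i ∈ s, q i j) := by
  have h1 : Tendsto (fun J : ℕ => ∑ i ∈ s, (∑ j ∈ Finset.range J, q i j) / (J : ENNReal))
      atTop (𝓝 (∑ i ∈ s, 0)) := tendsto_finsetSum s h
  rw [Finset.sum_const_zero] at h1
  refine h1.congr fun J => ?_
  rw [Finset.sum_comm]
  simp only [div_eq_mul_inv, Finset.sum_mul]

private theorem sum_div_mul (f : ℕ → ENNReal) {M : ℕ} (hM : 1 ≤ M) (J : ℕ) :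
    ∑ i ∈ Finset.range (M * J), f (i / M) = M * ∑ k ∈ Finset.range J, f k := by
  induction J with
  | zero => simp
  | succ J ih =>
    rw [Nat.mul_succ, Finset.sum_range_add, ih, Finset.sum_range_succ, mul_add]
    congr 1
    rw [Finset.sum_congr rfl (g := fun _ => f J), Finset.sum_const, Finset.card_range,
      nsmul_eq_mul]
    intro x hx
    rw [Finset.mem_range] at hx
    congr 1
    rw [Nat.mul_add_div (by omega), Nat.div_eq_of_lt hx, add_zero]

theorem ces_sub {p q : ℕ → ENNReal} {M a i0 : ℕ} (hM : 1 ≤ M) {C B B' : ENNReal} (hC : C ≠ ⊤)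
    (hB : B ≠ ⊤) (hB' : B' ≠ ⊤) (hp : ∀ i, p i ≤ B) (hq' : ∀ j, q j ≤ B')
    (h : ∀ i ≥ i0, p i ≤ C * q (i / M - a)) (hq : Ces q) : Ces p := by
  have hB1 : ∀ J, ∑ k ∈ Finset.range J, q (k - a) ≤ a * B' + ∑ k ∈ Finset.range J, q k := by
    intro J
    calc ∑ k ∈ Finset.range J, q (k - a) ≤ ∑ k ∈ Finset.range (a + J), q (k - a) :=
          Finset.sum_le_sum_of_subset (Finset.range_mono (by omega))
      _ = ∑ k ∈ Finset.range a, q (k - a) + ∑ k ∈ Finset.range J, q (a + k - a) :=
          Finset.sum_range_add _ _ _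
      _ ≤ a * B' + ∑ k ∈ Finset.range J, q k := by
          refine add_le_add ?_ (le_of_eq (Finset.sum_congr rfl fun k _ => by
            rw [Nat.add_sub_cancel_left]))
          calc ∑ k ∈ Finset.range a, q (k - a) ≤ ∑ k ∈ Finset.range a, B' :=
                Finset.sum_le_sum fun k _ => hq' _
            _ = a * B' := by rw [Finset.sum_const, Finset.card_range, nsmul_eq_mul]
  have hA : ∀ J, ∑ i ∈ Finset.range J, q (i / M - a) ≤
      M * (a * B' + ∑ k ∈ Finset.range J, q k) := by
    intro J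
    calc ∑ i ∈ Finset.range J, q (i / M - a) ≤ ∑ i ∈ Finset.range (M * J), q (i / M - a) :=
          Finset.sum_le_sum_of_subset (Finset.range_mono (Nat.le_mul_of_pos_left J hM))
      _ = M * ∑ k ∈ Finset.range J, q (k - a) := sum_div_mul (fun k => q (k - a)) hM J
      _ ≤ _ := by gcongr; exact hB1 J
  have hP : ∀ J, ∑ i ∈ Finset.range J, p i ≤
      (i0 * B + C * (M * (a * B'))) + C * M * ∑ k ∈ Finset.range J, q k := by
    intro J
    have h1 : ∀ i ∈ Finset.range J, p i ≤ (if i < i0 then B else 0) + C * q (i / M - a) := by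
      intro i _
      by_cases hi : i < i0
      · rw [if_pos hi]
        exact (hp i).trans le_self_add
      · rw [if_neg hi, zero_add]
        exact h i (by omega)
    refine (Finset.sum_le_sum h1).trans ?_
    rw [Finset.sum_add_distrib, ← Finset.sum_filter, Finset.sum_const, nsmul_eq_mul,
      ← Finset.mul_sum]
    have h3 : ((Finset.range J).filter (fun j => j < i0)).card ≤ i0 := by
      calc ((Finset.range J).filter (fun j => j < i0)).card ≤ (Finset.range i0).card :=
            Finset.card_le_card (fun j hj => Finset.mem_range.2 (Finset.mem_filter.1 hj).2)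
        _ = i0 := Finset.card_range i0
    calc (((Finset.range J).filter (fun j => j < i0)).card : ENNReal) * B +
          C * ∑ i ∈ Finset.range J, q (i / M - a)
        ≤ i0 * B + C * (M * (a * B' + ∑ k ∈ Finset.range J, q k)) := by
          gcongr
          exact hA J
      _ = _ := by ring
  set K1 : ENNReal := i0 * B + C * (M * (a * B')) with hK1
  have hK1t : K1 ≠ ⊤ := by
    rw [hK1]
    refine ENNReal.add_ne_top.2 ⟨ENNReal.mul_ne_top (ENNReal.natCast_ne_top _) hB,
      ENNReal.mul_ne_top hC (ENNReal.mul_ne_top (ENNReal.natCast_ne_top _)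
        (ENNReal.mul_ne_top (ENNReal.natCast_ne_top _) hB'))⟩
  have hK2t : C * M ≠ ⊤ := ENNReal.mul_ne_top hC (ENNReal.natCast_ne_top _)
  have hlim : Tendsto (fun J : ℕ => K1 / (J : ENNReal) +
      C * M * ((∑ j ∈ Finset.range J, q j) / (J : ENNReal))) atTop (𝓝 0) := by
    have h1 : Tendsto (fun J : ℕ => K1 / (J : ENNReal)) atTop (𝓝 (K1 / ⊤)) :=
      ENNReal.Tendsto.const_div ENNReal.tendsto_nat_nhds_top (Or.inr hK1t)
    have h2 : Tendsto (fun J : ℕ => C * M * ((∑ j ∈ Finset.range J, q j) / (J : ENNReal))) atTop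
        (𝓝 (C * M * 0)) := ENNReal.Tendsto.const_mul hq (Or.inr hK2t)
    have h3 := h1.add h2
    rwa [ENNReal.div_top, mul_zero, add_zero] at h3
  refine tendsto_of_tendsto_of_tendsto_of_le_of_le tendsto_const_nhds hlim (fun _ => zero_le) ?_
  intro J
  show (∑ j ∈ Finset.range J, p j) / (J : ENNReal) ≤ _
  calc (∑ j ∈ Finset.range J, p j) / (J : ENNReal)
      ≤ (K1 + C * M * ∑ k ∈ Finset.range J, q k) / (J : ENNReal) :=
        ENNReal.div_le_div_right (hP J) _
    _ = _ := by
        rw [div_eq_mul_inv, add_mul, ← div_eq_mul_inv, mul_assoc (C * (M : ENNReal)),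
          ← div_eq_mul_inv]

/-- eventual comparison -/
theorem ces_le {p q : ℕ → ENNReal} {i0 : ℕ} {C B B' : ENNReal} (hC : C ≠ ⊤)
    (hB : B ≠ ⊤) (hB' : B' ≠ ⊤) (hp : ∀ i, p i ≤ B) (hq' : ∀ j, q j ≤ B')
    (h : ∀ i ≥ i0, p i ≤ C * q i) (hq : Ces q) : Ces p :=
  ces_sub (M := 1) (a := 0) le_rfl hC hB hB' hp hq'
    (fun i hi => by rw [Nat.div_one, Nat.sub_zero]; exact h i hi) hq

end Pool.Agent.H44.LD
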