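import Pool.Agent.H44.LD.LDefs
import Pool.Agent.H79.Eul.NullB

/-!
# Module SCALM: scaling of the bad proportions

PROOFS. `volume` on `E d` is a Haar measure (`volume_haar`). `prop_scale`: `{v ∈ ball 0 1 | ¬ X (v0 + r v)}` is contained in (in fact equal to the part in `ball 0 1` of) `(r'/r) • {u ∈ ball 0 1 | ¬ X (v0 + r' u)}`: `u = (r/r') v`; `Measure.addHaar_smul` (`abs` of a positive power).
`prop_rot`: for `z ≠ 0` let `a = z / ‖z‖`, `‖a‖ = 1`; `v ↦ a • v` is a linear isometric bijection of `E d` (as a real space), it maps the left set onto the right set (`v0 + z • v = v0 + ‖z‖ • (a • v)`), and preserves the volume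
(`Measure.addHaar_image_linearMap` with determinant of modulus one: or `LinearIsometryEquiv.measurePreserving` does not apply to the sup norm; use: a linear map preserving `ball 0 1` has `|det| = 1` since `volume (ball 0 1)` is finite and not zero). Works for all sets, no measurability. `z = 0`: both sides are equal.
`prop_le`: monotone, `volume (ball 0 1) < ⊤`.
-/

set_option autoImplicit false

open Filter Topology Polynomial Metric Set MeasureTheory

namespace Pool.Agent.H44.LD

open Pool.Agent.H44.Fatou Pool.Agent.H32.BT Pool.Agent.H79.Eul Pool.Agent.H79.Par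
open Pool.Agent.H35.RL Pool.Agent.H35.EX Pool.Agent.H91.CE

open scoped Pointwise in
private theorem vol_scale {d : ℕ} (S T : Set (E d)) {c : ℝ} (hc : 0 < c) (h : ∀ v ∈ S, c⁻¹ • v ∈ T) :
    volume S ≤ ENNReal.ofReal (c ^ Module.finrank ℝ (E d)) * volume T := by
  have := volume_haar d
  have hsub : S ⊆ c • T := by
    intro v hv
    rw [mem_smul_set_iff_inv_smul_mem₀ hc.ne']
    exact h v hv
  refine (measure_mono hsub).trans (le_of_eq ?_)
  rw [Measure.addHaar_smul, abs_of_pos (pow_pos hc _)]

theorem prop_scale {d : ℕ} (v0 : E d) (X : E d → Prop) {r r' : ℝ} (hr : 0 < r) (hrr : r ≤ r') :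
    prop v0 X r ≤ ENNReal.ofReal ((r' / r) ^ Module.finrank ℝ (E d)) * prop v0 X r' := by
  have hr' : 0 < r' := hr.trans_le hrr
  have hc : 0 < r' / r := div_pos hr' hr
  refine vol_scale _ _ hc fun v hv => ?_
  have h1 : r' • ((r' / r)⁻¹ • v) = r • v := by
    rw [smul_smul]
    congr 1
    field_simp
  refine ⟨?_, ?_⟩
  · rw [mem_ball_zero_iff, norm_smul, inv_div, Real.norm_eq_abs, abs_of_pos (div_pos hr hr')]
    have h2 := mem_ball_zero_iff.1 hv.1
    have h3 : r / r' ≤ 1 := (div_le_one hr').2 hrr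
    calc r / r' * ‖v‖ ≤ 1 * ‖v‖ := mul_le_mul_of_nonneg_right h3 (norm_nonneg v)
      _ < 1 := by rwa [one_mul]
  · change ¬ X (v0 + r' • ((r' / r)⁻¹ • v))
    rw [h1]
    exact hv.2

theorem prop_rot {d : ℕ} (v0 : E d) (X : E d → Prop) (z : ℂ) :
    volume (ball (0 : E d) 1 ∩ {v | ¬ X (v0 + z • v)}) = prop v0 X ‖z‖ := by
  have := volume_haar d
  by_cases hz : z = 0
  · subst hz
    unfold prop
    congr 2
    ext v
    simp
  · have hn : ‖z‖ ≠ 0 := norm_ne_zero_iff.2 hz
    obtain ⟨a, ha⟩ : ∃ a : ℂ, a = z / ‖z‖ := ⟨_, rfl⟩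
    have ha1 : ‖a‖ = 1 := by
      rw [ha, norm_div, Complex.norm_real, norm_norm, div_self hn]
    have ha0 : a ≠ 0 := by
      intro h
      rw [h, norm_zero] at ha1
      exact zero_ne_one ha1
    let f : E d →ₗ[ℝ] E d := (LinearMap.lsmul ℂ (E d) a).restrictScalars ℝ
    let g : E d →ₗ[ℝ] E d := (LinearMap.lsmul ℂ (E d) a⁻¹).restrictScalars ℝ
    have hfg : f * g = 1 := by
      apply LinearMap.ext
      intro v
      change a • a⁻¹ • v = v
      rw [smul_inv_smul₀ ha0]
    have hdet : LinearMap.det f ≠ 0 := by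
      intro h
      have h1 := congrArg LinearMap.det hfg
      rw [map_mul, h, zero_mul, map_one] at h1
      exact zero_ne_one h1
    have hball : f ⁻¹' (ball (0 : E d) 1) = ball (0 : E d) 1 := by
      ext v
      rw [mem_preimage, mem_ball_zero_iff, mem_ball_zero_iff]
      change ‖a • v‖ < 1 ↔ _
      rw [norm_smul, ha1, one_mul]
    have hone : ENNReal.ofReal |(LinearMap.det f)⁻¹| = 1 := by
      have h1 := Measure.addHaar_preimage_linearMap (volume : Measure (E d)) hdet (ball (0 : E d) 1)
      rw [hball] at h1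
      have h2 : volume (ball (0 : E d) 1) ≠ 0 := (measure_ball_pos volume _ one_pos).ne'
      have h3 : volume (ball (0 : E d) 1) ≠ ⊤ := measure_ball_lt_top.ne
      rw [← ENNReal.div_self h2 h3]
      rw [ENNReal.eq_div_iff h2 h3, mul_comm]
      exact h1.symm
    have hset : ball (0 : E d) 1 ∩ {v | ¬ X (v0 + z • v)} =
        f ⁻¹' (ball (0 : E d) 1 ∩ {v | ¬ X (v0 + ‖z‖ • v)}) := by
      rw [preimage_inter, hball]
      congr 1
      ext v
      rw [mem_preimage]
      change ¬ X (v0 + z • v) ↔ ¬ X (v0 + ‖z‖ • (a • v))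
      have h1 : ‖z‖ • (a • v) = z • v := by
        rw [← Complex.coe_smul, smul_smul, ha, mul_div_cancel₀]
        exact_mod_cast hn
      rw [h1]
    rw [hset, Measure.addHaar_preimage_linearMap (volume : Measure (E d)) hdet, hone, one_mul]
    rfl

theorem prop_le {d : ℕ} (v0 : E d) (X : E d → Prop) (r : ℝ) :
    prop v0 X r ≤ volume (ball (0 : E d) 1) := measure_mono inter_subset_left

end Pool.Agent.H44.LD
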