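import Pool.Agent.H44.LD.LDefs
import Pool.Agent.H44.LD.SCALM
import Pool.Agent.H44.LD.CESL

/-!
# Module DYAD: the dyadic scales

PROOF. `ces_sub` with `a = 2`, `i0 = 3 * M`: for `i ≥ 3 M`, `j = i / M - 2` we have `i - 3 M + 1 ≤ j M ≤ i - 2 M`, so `(rad j / 2)^M = (3/8)^M (1/2)^(j M)` is between `(1/2)^i` and `3^M (1/2)^i`; `prop_scale` with ratio at most `3^M`: `C = ofReal ((3^M)^D)`. Bounds by `prop_le`.
-/

set_option autoImplicit false

open Filter Topology Polynomial Metric Set MeasureTheory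

namespace Pool.Agent.H44.LD

open Pool.Agent.H44.Fatou Pool.Agent.H32.BT Pool.Agent.H79.Eul Pool.Agent.H79.Par
open Pool.Agent.H35.RL Pool.Agent.H35.EX Pool.Agent.H91.CE

theorem dyad {d : ℕ} {v0 : E d} {X : E d → Prop} {M : ℕ} (hM : 1 ≤ M)
    (h : Ces (fun j => prop v0 X ((rad j / 2) ^ M))) : Ces (fun j => prop v0 X ((1 / 2) ^ j)) := by
  have hBt : volume (ball (0 : E d) 1) ≠ ⊤ := measure_ball_lt_top.ne
  refine ces_sub (M := M) (a := 2) (i0 := 3 * M)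
    (C := ENNReal.ofReal (((3:ℝ) ^ M) ^ Module.finrank ℝ (E d))) hM ENNReal.ofReal_ne_top hBt hBt
    (fun i => prop_le v0 X _) (fun j => prop_le v0 X _) ?_ h
  intro i hi
  have hMp : 0 < M := hM
  set j := i / M - 2 with hj
  have h1 : 3 ≤ i / M := (Nat.le_div_iff_mul_le hMp).2 hi
  have h2 : i / M * M ≤ i := Nat.div_mul_le_self i M
  have h3 : i < (i / M + 1) * M := by
    have := Nat.lt_succ_iff.1 (Nat.lt_succ_self (i / M))
    exact Nat.lt_mul_of_div_lt (Nat.lt_succ_self _) hMp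
  have h4 : i / M = j + 2 := by omega
  rw [h4] at h2 h3
  -- `(j + 2) M ≤ i < (j + 3) M`
  have h5 : (rad j / 2) ^ M = (3 / 8) ^ M * (1 / 2) ^ (j * M) := by
    rw [rad, pow_mul, ← mul_pow]
    congr 1
    ring
  have h6 : (1 / 2 : ℝ) ^ i ≤ (rad j / 2) ^ M := by
    rw [h5]
    calc (1 / 2 : ℝ) ^ i ≤ (1 / 2) ^ ((j + 2) * M) :=
          pow_le_pow_of_le_one (by norm_num) (by norm_num) h2
      _ = (1 / 4) ^ M * (1 / 2) ^ (j * M) := by
          rw [add_mul, pow_add, mul_comm, pow_mul (1 / 2 : ℝ) 2 M]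
          norm_num
      _ ≤ (3 / 8) ^ M * (1 / 2) ^ (j * M) := by
          gcongr ?_ ^ M * _
          norm_num
  have h7 : (rad j / 2) ^ M ≤ 3 ^ M * (1 / 2 : ℝ) ^ i := by
    rw [h5]
    calc (3 / 8 : ℝ) ^ M * (1 / 2) ^ (j * M) = 3 ^ M * (1 / 2) ^ ((j + 3) * M) := by
          rw [add_mul, pow_add, pow_mul (1 / 2 : ℝ) 3 M, mul_comm ((1 / 2 : ℝ) ^ (j * M)),
            ← mul_assoc, ← mul_pow]
          norm_num
      _ ≤ 3 ^ M * (1 / 2 : ℝ) ^ i := by
          gcongr ?_ * ?_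
          exact pow_le_pow_of_le_one (by norm_num) (by norm_num) h3.le
  have h8 : (0 : ℝ) < (1 / 2) ^ i := by positivity
  refine (prop_scale v0 X h8 h6).trans ?_
  gcongr ENNReal.ofReal ?_ * _
  apply pow_le_pow_left₀ (div_nonneg (h8.le.trans h6) h8.le)
  rw [div_le_iff₀ h8]
  exact h7

end Pool.Agent.H44.LD
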