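import Pool.Agent.H44.LD.LDefs
import Pool.Agent.H44.LD.CELINE
import Pool.Agent.H44.LD.ACO
import Pool.Agent.H44.LD.FUB
import Pool.Agent.H44.LD.DYAD

/-!
# Module CEGOOD: a Collet-Eckmann critical point

PROOF. The zeros of `wv v0` are finite (`wv_ne`), so there is `δ > 0` with `hone`. `ce_line`, `ces_of_dz` (bound `volume (ball 0 1)`), `fub` with `ac_open`, `dyad`.
-/

set_option autoImplicit false

open Filter Topology Polynomial Metric Set MeasureTheory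

namespace Pool.Agent.H44.LD

open Pool.Agent.H44.Fatou Pool.Agent.H32.BT Pool.Agent.H79.Eul Pool.Agent.H79.Par
open Pool.Agent.H35.RL Pool.Agent.H35.EX Pool.Agent.H91.CE

/-- a small disc with only one zero -/
theorem cegood_iso {d : ℕ} {v0 : E d} (hfin : {c : ℂ | wv v0 c = 0}.Finite) (c : ℂ) :
    ∃ δ : ℝ, 0 < δ ∧ ∀ z ∈ closedBall c δ, wv v0 z = 0 → z = c := by
  have h1 : ({z : ℂ | wv v0 z = 0} \ {c})ᶜ ∈ 𝓝 c := by
    refine ((hfin.subset sdiff_subset).isClosed.isOpen_compl).mem_nhds ?_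
    intro h
    exact h.2 rfl
  obtain ⟨δ, hδ, hsub⟩ := Metric.nhds_basis_closedBall.mem_iff.1 h1
  refine ⟨δ, hδ, fun z hz hw => ?_⟩
  by_contra hne
  exact hsub hz ⟨hw, hne⟩

theorem ce_good {d : ℕ} (hd : 2 ≤ d) {v0 : E d} (h0 : Chart0 v0) {K : Set ℂ} (hK : Inv v0 K)
    (hW : volume {z : ℂ | ¬ Basin v0 z} = 0) {c : ℂ} (hw : wv v0 c = 0)
    (hcK : ∀ j, it v0 j c ∈ K) (hG : ∃ m : ℕ, Gr v0 (it v0 m c)) :
    ∃ δ : ℝ, 0 < δ ∧ Ces (fun j => prop v0 (AC c δ) ((1 / 2) ^ j)) := by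
  obtain ⟨δ, hδ, hone⟩ := cegood_iso (wv_ne hd h0.1 h0.2.1) c
  obtain ⟨M, hM, hae⟩ := ce_line hd h0 hK hW hw hcK hG hδ hone
  refine ⟨δ, hδ, dyad hM (fub (ac_open hd h0.1 h0.2.1 c δ) hM ?_)⟩
  filter_upwards [hae] with v hv
  refine ces_of_dz (B := volume (ball (0 : ℂ) 1)) measure_ball_lt_top.ne
    (fun j => measure_mono inter_subset_left) hv

end Pool.Agent.H44.LD
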