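import Pool.Agent.H44.LD.LDefs
import Pool.Agent.H91.CE.CHARTC

/-!
# Module AEC: landing points are countable

PROOF. A point `z` with `(Rf v0)^[n * k] z → z'`, `z'` fixed by `(Rf v0)^[n]` with multiplier `1` (`fixMult_fix`, H80/AJ), is of type `Ty2` unless `(Rf v0)^[n * k] z = z'` for some `k`. The periodic points are countable (`per_all_countable`), the preimages of a point are countable
(`pre_countable`; see the use in `basin_ae`, H79/Par/RobNull), so the exceptional `z : ℂ` are a countable set, hence null.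
-/

set_option autoImplicit false

open Filter Topology Polynomial Metric Set MeasureTheory

namespace Pool.Agent.H44.LD

open Pool.Agent.H44.Fatou Pool.Agent.H32.BT Pool.Agent.H79.Eul Pool.Agent.H79.Par
open Pool.Agent.H35.RL Pool.Agent.H35.EX Pool.Agent.H91.CE

theorem ae_conv {d : ℕ} (hd : 2 ≤ d) {v0 : E d} (hcop : IsCoprime (pol v0.1) (pol v0.2))
    (hdeg : max (pol v0.1).natDegree (pol v0.2).natDegree = d)
    (hae : ∀ᵐ z : ℂ, (∃ (z' : OnePoint ℂ) (n : ℕ), Ty1 (Rf v0) (z : OnePoint ℂ) z' n) ∨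
      ∃ (z' : OnePoint ℂ) (n : ℕ), 0 < n ∧ FixMult (Rf v0)^[n] z' 1 ∧
        Tendsto (fun k : ℕ => (Rf v0)^[n * k] (z : OnePoint ℂ)) atTop (𝓝 z')) :
    volume {z : ℂ | ¬ ∃ (z' : OnePoint ℂ) (n : ℕ), Ty12 (Rf v0) (z : OnePoint ℂ) z' n} = 0 := by
  have hper : {x : OnePoint ℂ | ∃ n : ℕ, 0 < n ∧ (Rf v0)^[n] x = x}.Countable :=
    per_all_countable hcop (by rw [hdeg]; exact hd)
  have hpre : ∀ y : OnePoint ℂ, {x : OnePoint ℂ | ∃ j : ℕ, (Rf v0)^[j] x = y}.Countable :=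
    fun y => pre_countable hcop (by rw [hdeg]; omega) y
  have hB : (⋃ y ∈ {x : OnePoint ℂ | ∃ n : ℕ, 0 < n ∧ (Rf v0)^[n] x = x},
      {x : OnePoint ℂ | ∃ j : ℕ, (Rf v0)^[j] x = y}).Countable :=
    hper.biUnion fun y _ => hpre y
  have hc : (((↑) : ℂ → OnePoint ℂ) ⁻¹' (⋃ y ∈ {x : OnePoint ℂ | ∃ n : ℕ, 0 < n ∧
      (Rf v0)^[n] x = x}, {x : OnePoint ℂ | ∃ j : ℕ, (Rf v0)^[j] x = y})).Countable :=
    hB.preimage_of_injOn OnePoint.coe_injective.injOn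
  refine measure_mono_null ?_ (measure_union_null (ae_iff.1 hae) (hc.measure_zero volume))
  intro z hz
  by_cases h1 : (∃ (z' : OnePoint ℂ) (n : ℕ), Ty1 (Rf v0) (z : OnePoint ℂ) z' n) ∨
      ∃ (z' : OnePoint ℂ) (n : ℕ), 0 < n ∧ FixMult (Rf v0)^[n] z' 1 ∧
        Tendsto (fun k : ℕ => (Rf v0)^[n * k] (z : OnePoint ℂ)) atTop (𝓝 z')
  · rcases h1 with ⟨z', n, h2⟩ | ⟨z', n, hn, hfix, hlim⟩
    · exact absurd ⟨z', n, Or.inl h2⟩ hz
    · right
      by_cases h3 : ∀ k : ℕ, (Rf v0)^[n * k] (z : OnePoint ℂ) ≠ z'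
      · exact absurd ⟨z', n, Or.inr ⟨hn, hfix, hlim, h3⟩⟩ hz
      · push Not at h3
        obtain ⟨k, hk⟩ := h3
        rw [Set.mem_preimage, Set.mem_iUnion₂]
        exact ⟨z', ⟨n, hn, Pool.Agent.H80.AJ.fixMult_fix hfix⟩, n * k, hk⟩
  · left
    exact h1

end Pool.Agent.H44.LD
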