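import Pool.Agent.H44.LD.LDefs
import Pool.Agent.H44.LD.CESL
import Pool.Agent.H91.CE.HYPF
import Pool.Agent.H79.Par.GDefs

/-!
# Module CGP: the critical points of the other types

PROOF. The zeros of `wv v0` are finite (`wv_ne`): take `δ > 0` such that `c` is the only zero in `closedBall c δ` (if `c` is a zero; otherwise no zero at all, and then `AC c δ w` holds for `w` near `v0`). Claim: `prop v0 (AC c δ) r → 0` as `r → 0+`. Given `ε > 0`, `CGood` gives `δ'` with
`volume (ball 0 1 ∩ {v | ¬ ∀ z ∈ ball c δ', ..}) ≤ ε` for small `r`. On the compact set `closedBall c δ \ ball c δ'` there is no zero of `wv v0` (if `δ' > δ` it is empty), hence none of `wv w` for `w` near `v0` (`ev_compact`, `wv_cont`, as in `hyp_near`), so for small `r` and all `v ∈ ball 0 1` (`pv v0 (v, r) = v0 + r • v` is near `v0`)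
the zeros of `wv (v0 + r v)` in `closedBall c δ` are in `ball c δ'`: the set of `prop` is contained in the set of `CGood`. Compose with `(1/2)^j → 0+`; `ces_of_tendsto` with the bound `volume (ball 0 1)`.
-/

set_option autoImplicit false

open Filter Topology Polynomial Metric Set MeasureTheory

namespace Pool.Agent.H44.LD

open Pool.Agent.H44.Fatou Pool.Agent.H32.BT Pool.Agent.H79.Eul Pool.Agent.H79.Par
open Pool.Agent.H35.RL Pool.Agent.H35.EX Pool.Agent.H91.CE

/-- a small disc with only one zero -/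
private theorem cgp_iso {d : ℕ} {v0 : E d} (hfin : {c : ℂ | wv v0 c = 0}.Finite) (c : ℂ) :
    ∃ δ : ℝ, 0 < δ ∧ ∀ z ∈ closedBall c δ, wv v0 z = 0 → z = c := by
  have h1 : ({z : ℂ | wv v0 z = 0} \ {c})ᶜ ∈ 𝓝 c := by
    refine ((hfin.subset sdiff_subset).isClosed.isOpen_compl).mem_nhds ?_
    intro h
    exact h.2 rfl
  obtain ⟨δ, hδ, hsub⟩ := Metric.nhds_basis_closedBall.mem_iff.1 h1
  refine ⟨δ, hδ, fun z hz hw => ?_⟩
  by_contra hne
  exact hsub hz ⟨hw, hne⟩

theorem cgood_ces {d : ℕ} (hd : 2 ≤ d) {v0 : E d} (hcop : IsCoprime (pol v0.1) (pol v0.2))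
    (hdeg : max (pol v0.1).natDegree (pol v0.2).natDegree = d) {c : ℂ} (h : CGood v0 c) :
    ∃ δ : ℝ, 0 < δ ∧ Ces (fun j => prop v0 (AC c δ) ((1 / 2) ^ j)) := by
  obtain ⟨δ, hδ, hone⟩ := cgp_iso (wv_ne hd hcop hdeg) c
  refine ⟨δ, hδ, ces_of_tendsto (B := volume (ball (0 : E d) 1)) measure_ball_lt_top.ne
    (fun j => measure_mono inter_subset_left) ?_⟩
  rw [ENNReal.tendsto_nhds_zero]
  intro ε hε
  obtain ⟨δ', hδ', hev⟩ := h ε hε
  have hcomp : IsCompact (closedBall c δ \ ball c δ') :=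
    (isCompact_closedBall c δ).diff isOpen_ball
  have hloc : ∀ z ∈ closedBall c δ \ ball c δ',
      ∀ᶠ y : E d × ℂ in 𝓝 v0 ×ˢ 𝓝 z, wv y.1 y.2 ≠ 0 := by
    intro z hz
    have hz0 : wv v0 z ≠ 0 := by
      intro h
      apply hz.2
      rw [hone z hz.1 h]
      exact mem_ball_self hδ'
    rw [← nhds_prod_eq]
    exact ((wv_cont (d := d)).tendsto (v0, z)).eventually_ne hz0
  have hall := ev_compact (p := fun (w : E d) z => wv w z ≠ 0) hcomp hloc
  obtain ⟨ρ, hρ, hball⟩ := Metric.eventually_nhds_iff_ball.1 hall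
  have hr : Tendsto (fun j : ℕ => ((1 : ℝ) / 2) ^ j) atTop (𝓝[>] 0) := by
    rw [tendsto_nhdsWithin_iff]
    exact ⟨tendsto_pow_atTop_nhds_zero_of_lt_one (by norm_num) (by norm_num),
      Eventually.of_forall fun j => by
        show (0 : ℝ) < (1 / 2) ^ j
        positivity⟩
  have hr2 : ∀ᶠ j : ℕ in atTop, ((1 : ℝ) / 2) ^ j < ρ :=
    (tendsto_pow_atTop_nhds_zero_of_lt_one (by norm_num) (by norm_num)).eventually
      (eventually_lt_nhds hρ)
  filter_upwards [hr.eventually hev, hr2] with j h1 h2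
  refine le_trans (measure_mono ?_) h1
  rintro v ⟨hv1, hv2⟩
  refine ⟨hv1, fun hall2 => hv2 ?_⟩
  intro z hz hwz
  have hpos : (0 : ℝ) < (1 / 2) ^ j := by positivity
  have hmem : v0 + ((1 / 2 : ℝ) ^ j) • v ∈ ball v0 ρ := by
    rw [mem_ball, dist_eq_norm, add_sub_cancel_left, norm_smul, Real.norm_eq_abs,
      abs_of_pos hpos]
    rw [mem_ball_zero_iff] at hv1
    calc (1 / 2 : ℝ) ^ j * ‖v‖ ≤ (1 / 2 : ℝ) ^ j * 1 :=
          mul_le_mul_of_nonneg_left hv1.le hpos.le
      _ < ρ := by rw [mul_one]; exact h2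
  by_cases hzb : z ∈ ball c δ'
  · exact hall2 z hzb hwz
  · exact absurd hwz (hball _ hmem z ⟨hz, hzb⟩)

end Pool.Agent.H44.LD
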