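import Pool.Agent.H44.LD.LDefs
import Pool.Agent.H44.LD.CESL
import Pool.Agent.H44.LD.SCALM
import Pool.Agent.H79.Par.ChartVol

/-!
# Module CHV: back from the chart

PROOF: `hbound` in the proof of `chart_vol` (H79/Par/ChartVol): there are constants `C ≠ ⊤` and `M' > 0` with `prop v0 HypDeg r ≤ C * prop (Lin s v0) HypDeg (M' * r)` for all `r` (`pv v0 (v, r) = v0 + r • v`). Take `a` with `M' ≤ 2^a`; `prop_scale`: `prop w0 HypDeg (M' (1/2)^i) ≤ ofReal ((2^a / M')^D) * prop w0 HypDeg ((1/2)^(i - a))` for `i ≥ a`.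
`ces_sub` with `M = 1`.
-/

set_option autoImplicit false

open Filter Topology Polynomial Metric Set MeasureTheory

namespace Pool.Agent.H44.LD

open Pool.Agent.H44.Fatou Pool.Agent.H32.BT Pool.Agent.H79.Eul Pool.Agent.H79.Par
open Pool.Agent.H35.RL Pool.Agent.H35.EX Pool.Agent.H91.CE

private theorem chart_bound (s : ℂ) {d : ℕ} (hd : 1 ≤ d) (v0 : E d) :
    ∃ (C : ENNReal) (M : ℝ), C ≠ ⊤ ∧ 0 < M ∧
      ∀ r : ℝ, prop v0 HypDeg r ≤ C * prop (Lin s v0) HypDeg (M * r) := by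
  have hhaar := volume_haar d
  let g : E d →ₗ[ℂ] E d :=
    { toFun := Lin s
      map_add' := lin_add s
      map_smul' := fun c v => by rw [lin_smul, RingHom.id_apply] }
  let f : E d →ₗ[ℝ] E d := g.restrictScalars ℝ
  have hf : ∀ v, f v = Lin s v := fun v => rfl
  have hdet : LinearMap.det f ≠ 0 := by
    intro h
    have h1 := LinearMap.bot_lt_ker_of_det_eq_zero h
    have h2 : LinearMap.ker f = ⊥ := LinearMap.ker_eq_bot.2 (lin_inj s)
    rw [h2] at h1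
    exact lt_irrefl _ h1
  let F : E d →L[ℝ] E d := LinearMap.toContinuousLinearMap f
  have hF : ∀ v, F v = Lin s v := fun v => rfl
  obtain ⟨M, hM⟩ : ∃ M : ℝ, M = ‖F‖ + 1 := ⟨_, rfl⟩
  have hM0 : 0 < M := by rw [hM]; positivity
  refine ⟨ENNReal.ofReal |(LinearMap.det f)⁻¹| *
    ENNReal.ofReal |M ^ Module.finrank ℝ (E d)|, M,
    ENNReal.mul_ne_top ENNReal.ofReal_ne_top ENNReal.ofReal_ne_top, hM0, ?_⟩
  intro r
  unfold prop
  rw [mul_assoc, ← Measure.addHaar_smul, ← Measure.addHaar_preimage_linearMap _ hdet]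
  apply measure_mono
  rintro v ⟨hv1, hv2⟩
  rw [Set.mem_preimage, Set.mem_smul_set]
  refine ⟨M⁻¹ • f v, ⟨?_, ?_⟩, ?_⟩
  · rw [mem_ball_zero_iff] at hv1 ⊢
    rw [norm_smul, norm_inv, Real.norm_of_nonneg hM0.le, inv_mul_lt_iff₀ hM0, mul_one]
    calc ‖f v‖ = ‖F v‖ := rfl
      _ ≤ ‖F‖ * ‖v‖ := F.le_opNorm v
      _ ≤ ‖F‖ * 1 := by gcongr
      _ < M := by rw [hM]; linarith
  · intro hcon
    apply hv2
    have e0 : v0 + r • v = pv v0 (v, r) := rfl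
    rw [e0]
    apply hyp_lin (s := s) hd
    rw [lin_pv]
    have e : Lin s v0 + (M * r) • (M⁻¹ • f v) = pv (Lin s v0) (Lin s v, r) := by
      unfold pv
      simp only
      rw [smul_smul]
      have e2 : M * r * M⁻¹ = r := by field_simp
      rw [e2]
      rfl
    rw [← e]
    exact hcon
  · rw [smul_inv_smul₀ hM0.ne']

theorem ces_chart (s : ℂ) {d : ℕ} (hd : 1 ≤ d) {v0 : E d}
    (h : Ces (fun j => prop (Lin s v0) HypDeg ((1 / 2) ^ j))) :
    Ces (fun j => prop v0 HypDeg ((1 / 2) ^ j)) := by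
  obtain ⟨C, M, hC, hM, hb⟩ := chart_bound s hd v0
  obtain ⟨a, ha⟩ : ∃ a : ℕ, M ≤ 2 ^ a := (pow_unbounded_of_one_lt M one_lt_two).imp
    fun _ h => h.le
  have hV : volume (ball (0 : E d) 1) ≠ ⊤ := measure_ball_lt_top.ne
  obtain ⟨D, hD⟩ : ∃ D : ℕ, D = Module.finrank ℝ (E d) := ⟨_, rfl⟩
  refine ces_sub (M := 1) (a := a) (i0 := a) (C := C * ENNReal.ofReal ((2 ^ a / M) ^ D)) le_rfl
    (ENNReal.mul_ne_top hC ENNReal.ofReal_ne_top) hV hV (fun i => prop_le _ _ _)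
    (fun j => prop_le _ _ _) ?_ h
  intro i hi
  have h1 := hb ((1 / 2) ^ i)
  have hpi : (0 : ℝ) < (1 / 2) ^ i := by positivity
  have e : ((1 : ℝ) / 2) ^ (i - a) = 2 ^ a * (1 / 2) ^ i := by
    obtain ⟨j, rfl⟩ : ∃ j, i = a + j := ⟨i - a, by omega⟩
    rw [Nat.add_sub_cancel_left, pow_add, ← mul_assoc, ← mul_pow]
    norm_num
  have h2 := prop_scale (Lin s v0) HypDeg (r := M * (1 / 2) ^ i) (r' := (1 / 2) ^ (i - a))
    (by positivity) (by rw [e]; gcongr)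
  have e3 : ((1 : ℝ) / 2) ^ (i - a) / (M * (1 / 2) ^ i) = 2 ^ a / M := by
    rw [e]
    field_simp
  rw [e3, ← hD] at h2
  show prop v0 HypDeg ((1 / 2) ^ i) ≤
    C * ENNReal.ofReal ((2 ^ a / M) ^ D) * prop (Lin s v0) HypDeg ((1 / 2) ^ (i / 1 - a))
  rw [Nat.div_one, mul_assoc]
  exact h1.trans (by gcongr)

end Pool.Agent.H44.LD
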