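import Pool.Agent.H91.CE.CDefs

/-!
# Logarithmic density of hyperbolic maps at Collet-Eckmann maps: definitions

Notation of H91/CE, H79/Par. All steps are done for one critical point `c` (the Cesàro means are additive).
-/

set_option autoImplicit false

open Filter Topology Polynomial Metric Set MeasureTheory

namespace Pool.Agent.H44.LD

open Pool.Agent.H44.Fatou Pool.Agent.H32.BT Pool.Agent.H79.Eul Pool.Agent.H79.Par
open Pool.Agent.H35.RL Pool.Agent.H35.EX Pool.Agent.H91.CE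

/-- the disc of radius `ρ` is a good scale for the sequence of functions `g`: at some time the oscillation is at
most `B` on the disc and at least `s` on the disc of half the radius -/
def Good1 (g : ℕ → ℂ → ℂ) (ok : ℕ → ℂ → Prop) (B s ρ : ℝ) : Prop :=
  ∃ n : ℕ, DifferentiableOn ℂ (g n) (ball 0 ρ) ∧ (∀ i < n, ∀ t ∈ ball (0 : ℂ) ρ, ok i t) ∧
    (∀ t ∈ ball (0 : ℂ) ρ, ‖g n t - g n 0‖ ≤ B) ∧ ∃ t ∈ ball (0 : ℂ) (ρ / 2), s ≤ ‖g n t - g n 0‖

/-- a nonconstant limit of rescalings -/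
structure Lim1 (g : ℕ → ℂ → ℂ) (ok : ℕ → ℂ → Prop) (ρ : ℕ → ℝ) (n : ℕ → ℕ) (Ψ : ℂ → ℂ) : Prop where
  diff : DifferentiableOn ℂ Ψ (ball 0 1)
  ncst : ¬ ∀ η ∈ ball (0 : ℂ) 1, Ψ η = Ψ 0
  hok : ∀ j, ∀ i < n j, ∀ t ∈ ball (0 : ℂ) (ρ j), ok i t
  lim : ∀ η ∈ ball (0 : ℂ) 1,
    Tendsto (fun w : ℕ × ℂ => g (n w.1) (ρ w.1 * w.2)) (atTop ×ˢ 𝓝 η) (𝓝 (Ψ η))

open Classical in
/-- a set of natural numbers of density zero -/
def DZ (B : Set ℕ) : Prop :=
  ∀ δ : ℝ, 0 < δ → ∃ j0 : ℕ, ∀ J : ℕ,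
    (((Finset.range J).filter (fun j => j0 ≤ j ∧ j ∈ B)).card : ℝ) ≤ δ * (J + 1)

/-- the Cesàro means tend to zero -/
def Ces (q : ℕ → ENNReal) : Prop :=
  Tendsto (fun J : ℕ => (∑ j ∈ Finset.range J, q j) / (J : ENNReal)) atTop (𝓝 0)

/-- the critical points of `w` in `closedBall c δ` are attracted -/
def AC {d : ℕ} (c : ℂ) (δ : ℝ) (w : E d) : Prop :=
  ∀ z ∈ closedBall c δ, wv w z = 0 → Att (Rf w) (z : OnePoint ℂ)

/-- the radius of the `j`-th disc of parameters -/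
noncomputable def rad (j : ℕ) : ℝ := 3 / 4 * (1 / 2) ^ j

/-- near `v0` the property `X` is open -/
def OpenAt {d : ℕ} (v0 : E d) (X : E d → Prop) : Prop :=
  ∃ N : Set (E d), IsOpen N ∧ v0 ∈ N ∧ IsOpen (N ∩ {w | X w})

/-- the proportion (up to a constant factor) of the ball of radius `r` around `v0` without the property `X` -/
noncomputable def prop {d : ℕ} (v0 : E d) (X : E d → Prop) (r : ℝ) : ENNReal :=
  volume (ball (0 : E d) 1 ∩ {v | ¬ X (v0 + r • v)})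

end Pool.Agent.H44.LD
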