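import Pool.Agent.H44.LD.LDefs
import Pool.Agent.H44.LD.SCALM
import Pool.Agent.H44.LD.CESL
import Pool.Agent.H91.CE.HYPF

/-!
# Module LFIN: all critical points together

PROOF. Choose `δ c` for the finitely many zeros of `wv v0` (`wv_ne`; a zero `c` is critical: `hcrit` in `ce_core`). `hyp_near` with `R c = δ c`: for `w` near `v0`: if `AC c (δ c) w` for all zeros `c` then `HypDeg w` (`ball ⊆ closedBall`). For large `j` and `v ∈ ball 0 1` the map `v0 + (1/2)^j • v` is near `v0`; so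
`prop v0 HypDeg ((1/2)^j) ≤ ∑ c ∈ zeros, prop v0 (AC c (δ c)) ((1/2)^j)` (`measure_biUnion_finset_le`). `ces_sum`, `ces_le` (bounds `prop_le`).
-/

set_option autoImplicit false

open Filter Topology Polynomial Metric Set MeasureTheory

namespace Pool.Agent.H44.LD

open Pool.Agent.H44.Fatou Pool.Agent.H32.BT Pool.Agent.H79.Eul Pool.Agent.H79.Par
open Pool.Agent.H35.RL Pool.Agent.H35.EX Pool.Agent.H91.CE

theorem l_final {d : ℕ} (hd : 2 ≤ d) {v0 : E d} (hcop : IsCoprime (pol v0.1) (pol v0.2))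
    (hdeg : max (pol v0.1).natDegree (pol v0.2).natDegree = d)
    (hinf : ¬ IsCrit (Rf v0) OnePoint.infty)
    (hc : ∀ c : ℂ, IsCrit (Rf v0) (c : OnePoint ℂ) →
      ∃ δ : ℝ, 0 < δ ∧ Ces (fun j => prop v0 (AC c δ) ((1 / 2) ^ j))) :
    Ces (fun j => prop v0 HypDeg ((1 / 2) ^ j)) := by
  classical
  have hd1 : 1 ≤ max (pol v0.1).natDegree (pol v0.2).natDegree := by rw [hdeg]; omega
  have hcrit : ∀ c : ℂ, wv v0 c = 0 → IsCrit (Rf v0) (c : OnePoint ℂ) := by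
    intro c h
    apply crit_of_wr hcop hd1
    rw [← wv_cf (pol_deg _) (pol_deg _), cf_pol, cf_pol]
    exact h
  have hex : ∀ c : ℂ, ∃ δ : ℝ, wv v0 c = 0 → 0 < δ ∧ Ces (fun j => prop v0 (AC c δ) ((1 / 2) ^ j)) := by
    intro c
    by_cases hw : wv v0 c = 0
    · obtain ⟨δ, h1, h2⟩ := hc c (hcrit c hw)
      exact ⟨δ, fun _ => ⟨h1, h2⟩⟩
    · exact ⟨0, fun h => absurd h hw⟩
  choose R hR using hex
  have hfin := wv_ne hd hcop hdeg
  obtain ⟨Fs, hFs⟩ : ∃ Fs : Finset ℂ, ∀ c, c ∈ Fs ↔ wv v0 c = 0 :=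
    ⟨hfin.toFinset, fun c => hfin.mem_toFinset⟩
  obtain ⟨ρ, hρ, hball⟩ := Metric.eventually_nhds_iff_ball.1
    (hyp_near hd hcop hdeg hinf (R := R) (fun c hcw => (hR c hcw).1))
  have hr2 : ∀ᶠ j : ℕ in atTop, ((1 : ℝ) / 2) ^ j < ρ :=
    (tendsto_pow_atTop_nhds_zero_of_lt_one (by norm_num) (by norm_num)).eventually
      (eventually_lt_nhds hρ)
  obtain ⟨i0, hi0⟩ := eventually_atTop.1 hr2
  have hbt : volume (ball (0 : E d) 1) ≠ ⊤ := measure_ball_lt_top.ne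
  have hsum := ces_sum Fs (q := fun c j => prop v0 (AC c (R c)) ((1 / 2) ^ j))
    (fun c hcF => (hR c ((hFs c).1 hcF)).2)
  refine ces_le (i0 := i0) (C := 1) (B := volume (ball (0 : E d) 1))
    (B' := Fs.card • volume (ball (0 : E d) 1)) ENNReal.one_ne_top hbt ?_
    (fun j => prop_le v0 _ _) (fun j => Finset.sum_le_card_nsmul _ _ _ fun c _ => prop_le v0 _ _) ?_
    hsum
  · rw [nsmul_eq_mul]
    exact ENNReal.mul_ne_top (ENNReal.natCast_ne_top _) hbt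
  intro j hj
  rw [one_mul]
  refine le_trans (measure_mono ?_) (measure_biUnion_finset_le Fs
    (fun c => ball (0 : E d) 1 ∩ {v | ¬ AC c (R c) (v0 + ((1 / 2 : ℝ) ^ j) • v)}))
  rintro v ⟨hv1, hv2⟩
  have hpos : (0 : ℝ) < (1 / 2) ^ j := by positivity
  have hmem : v0 + ((1 / 2 : ℝ) ^ j) • v ∈ ball v0 ρ := by
    rw [mem_ball, dist_eq_norm, add_sub_cancel_left, norm_smul, Real.norm_eq_abs,
      abs_of_pos hpos]
    rw [mem_ball_zero_iff] at hv1
    calc (1 / 2 : ℝ) ^ j * ‖v‖ ≤ (1 / 2 : ℝ) ^ j * 1 :=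
          mul_le_mul_of_nonneg_left hv1.le hpos.le
      _ < ρ := by rw [mul_one]; exact hi0 j hj
  by_contra hnot
  apply hv2
  refine hball _ hmem fun c hcw z hz hwz => ?_
  by_contra hatt
  apply hnot
  rw [mem_iUnion₂]
  exact ⟨c, (hFs c).2 hcw, hv1, fun hAC => hatt (hAC z (ball_subset_closedBall hz) hwz)⟩

end Pool.Agent.H44.LD
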