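import Pool.Agent.H44.LD.LDefs
import Pool.Agent.H44.LD.CEGOOD
import Pool.Agent.H44.LD.CGP
import Pool.Agent.H44.LD.LFIN
import Pool.Agent.H44.LD.CHLD
import Pool.Agent.H44.LD.CHV
import Pool.Agent.H35.EX.DensK

/-!
# Module MAIN: logarithmic density at Collet-Eckmann maps

PROOF. `chart_ld`, `ces_chart`, `l_final`; for a critical point `c` (`wv w0 c = 0`, finite iterates by `Chart0`) of the first alternative `CGood w0 c` (`sub_c (sub_basin ..)`, `land_good`, as in `geo_densK`, H35/EX/DensK) and `cgood_ces`; of the second `ce_good`.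
-/

set_option autoImplicit false

open Filter Topology Polynomial Metric Set MeasureTheory

namespace Pool.Agent.H44.LD

open Pool.Agent.H44.Fatou Pool.Agent.H32.BT Pool.Agent.H79.Eul Pool.Agent.H79.Par
open Pool.Agent.H35.RL Pool.Agent.H35.EX Pool.Agent.H91.CE

theorem ld_main {d : ℕ} (hd : 2 ≤ d) {v0 : E d} (hcop : IsCoprime (pol v0.1) (pol v0.2))
    (hdeg : max (pol v0.1).natDegree (pol v0.2).natDegree = d)
    (h : ∀ c, IsCrit (Rf v0) c → (∃ z n, Ty12 (Rf v0) c z n ∨ Ty4 (Rf v0) c z n) ∨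
      ∃ m : ℕ, CEAt (Rf v0) ((Rf v0)^[m] c))
    (hae : volume {z : ℂ | ¬ ∃ (z' : OnePoint ℂ) (n : ℕ), Ty12 (Rf v0) (z : OnePoint ℂ) z' n} = 0) :
    Ces (fun j => prop v0 HypDeg ((1 / 2) ^ j)) := by
  obtain ⟨s, K, h0, h1, hK, hW, hc⟩ := chart_ld hd hcop hdeg h hae
  have hV := rob_null hd h0.1 h0.2.1
  refine ces_chart s (by omega) (l_final hd h0.1 h0.2.1 h1 fun c hcr => ?_)
  have hw : wv (Lin s v0) c = 0 := by
    have h5 := crit_coe hcr
    rw [← wv_cf (d := d) (pol_deg _) (pol_deg _), cf_pol, cf_pol] at h5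
    exact h5
  have hcf := h0.2.2.2 _ hcr
  rcases hc c hcr with ⟨z, n, hT, hzf⟩ | ⟨hcK, hG⟩
  · refine cgood_ces hd h0.1 h0.2.1 ?_
    rcases hT with hT | hT
    · exact sub_c (sub_basin ⟨z, n, hT, hcf, hzf⟩ hV)
    · exact Pool.Agent.H35.PL.land_good hd h0 hw hT
  · exact ce_good hd h0 hK hW hw hcK hG

end Pool.Agent.H44.LD
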