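import Pool.Agent.H44.LD.LDefs
import Pool.Agent.H79.Par.GMain

/-!
# Module NULLS: sets which are small in logarithmic mean around each of their points are null
-/

set_option autoImplicit false

open Filter Topology Polynomial Metric Set MeasureTheory

namespace Pool.Agent.H44.LD

open Pool.Agent.H44.Fatou Pool.Agent.H32.BT Pool.Agent.H79.Eul Pool.Agent.H79.Par
open Pool.Agent.H35.RL Pool.Agent.H35.EX Pool.Agent.H91.CE

theorem not_ces {p : ℕ → ENNReal} {j0 : ℕ} (h : ∀ j ≥ j0, 1 / 2 ≤ p j) : ¬ Ces p := by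
  intro hc
  have h1 : ∀ᶠ J : ℕ in atTop, (∑ j ∈ Finset.range J, p j) / (J : ENNReal) < 1 / 4 := by
    refine hc.eventually (eventually_lt_nhds ?_)
    simp
  obtain ⟨J, hJ, hJ2⟩ := (h1.and (eventually_ge_atTop (2 * j0 + 2))).exists
  have hJ0 : (J : ENNReal) ≠ 0 := by
    rw [Nat.cast_ne_zero]
    omega
  have hJt : (J : ENNReal) ≠ ⊤ := ENNReal.natCast_ne_top J
  have h2 : ((J : ENNReal)) / 4 ≤ ∑ j ∈ Finset.range J, p j := by
    calc ((J : ENNReal)) / 4 ≤ ((J - j0 : ℕ) : ENNReal) * (1 / 2) := by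
          rw [ENNReal.div_le_iff (by norm_num) (by norm_num), mul_assoc]
          have h3 : (1 / 2 : ENNReal) * 4 = 2 := by
            rw [show (4 : ENNReal) = 2 * 2 by norm_num, ← mul_assoc, one_div,
              ENNReal.inv_mul_cancel (by norm_num) (by norm_num), one_mul]
          rw [h3]
          have h4 : J ≤ (J - j0) * 2 := by omega
          exact_mod_cast h4
      _ = ∑ j ∈ Finset.range J \ Finset.range j0, (1 / 2 : ENNReal) := by
          rw [Finset.sum_const, nsmul_eq_mul, Finset.card_sdiff_of_subset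
            (Finset.range_mono (by omega)), Finset.card_range, Finset.card_range]
      _ ≤ ∑ j ∈ Finset.range J \ Finset.range j0, p j := by
          refine Finset.sum_le_sum fun j hj => h j ?_
          rw [Finset.mem_sdiff, Finset.mem_range, Finset.mem_range] at hj
          omega
      _ ≤ ∑ j ∈ Finset.range J, p j :=
          Finset.sum_le_sum_of_subset Finset.sdiff_subset
  have h5 := (ENNReal.div_lt_iff (Or.inl hJ0) (Or.inl hJt)).1 hJ
  have h6 : (1 / 4 : ENNReal) * J = J / 4 := by
    rw [one_div, mul_comm, ← div_eq_mul_inv]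
  rw [h6] at h5
  exact absurd h5 (not_lt.2 h2)

theorem null_of_ces {d : ℕ} {S B : Set (E d)} (hS : S ⊆ B)
    (h : ∀ v ∈ S, Ces (fun j => volume (ball v ((1 / 2) ^ j) ∩ B) /
      volume (ball v ((1 / 2) ^ j)))) : volume S = 0 := by
  have hae := IsUnifLocDoublingMeasure.ae_tendsto_measure_inter_div (volume : Measure (E d)) S 1
  rw [ae_iff] at hae
  refine measure_mono_null (t := {a | ¬ _} ∩ S) ?_ (le_antisymm
    ((Measure.le_restrict_apply S _).trans hae.le) zero_le)
  intro v hv
  refine ⟨fun hP => ?_, hv⟩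
  have hr : Tendsto (fun j : ℕ => ((1 : ℝ) / 2) ^ j) atTop (𝓝[>] 0) := by
    rw [tendsto_nhdsWithin_iff]
    exact ⟨tendsto_pow_atTop_nhds_zero_of_lt_one (by norm_num) (by norm_num),
      Eventually.of_forall fun j => by
        show (0 : ℝ) < (1 / 2) ^ j
        positivity⟩
  have h1 := hP (fun _ => v) (fun j : ℕ => ((1 : ℝ) / 2) ^ j) hr (Eventually.of_forall fun j => by
    refine mem_closedBall_self ?_
    positivity)
  have h2 : ∀ᶠ j : ℕ in atTop, (1 / 2 : ENNReal) ≤
      volume (S ∩ closedBall v ((1 / 2) ^ j)) / volume (closedBall v ((1 / 2) ^ j)) := by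
    refine h1.eventually (eventually_ge_nhds ?_)
    rw [one_div]
    exact ENNReal.inv_lt_one.2 (by norm_num)
  obtain ⟨j0, hj0⟩ := eventually_atTop.1 h2
  refine not_ces (j0 := j0) (fun j hj => ?_) (h v hv)
  refine (hj0 j hj).trans ?_
  have hpos : (0 : ℝ) < (1 / 2) ^ j := by positivity
  haveI := volume_haar (d := d)
  have hsph : volume (sphere v ((1 / 2 : ℝ) ^ j)) = 0 := Measure.addHaar_sphere_of_ne_zero _ _ hpos.ne'
  have h3 : volume (S ∩ closedBall v ((1 / 2) ^ j)) ≤ volume (ball v ((1 / 2) ^ j) ∩ B) := by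
    calc volume (S ∩ closedBall v ((1 / 2) ^ j))
        ≤ volume ((ball v ((1 / 2) ^ j) ∩ B) ∪ sphere v ((1 / 2) ^ j)) := by
          refine measure_mono ?_
          rintro x ⟨hx1, hx2⟩
          rcases lt_or_eq_of_le (mem_closedBall.1 hx2) with h4 | h4
          · exact Or.inl ⟨h4, hS hx1⟩
          · exact Or.inr h4
      _ ≤ volume (ball v ((1 / 2) ^ j) ∩ B) + volume (sphere v ((1 / 2) ^ j)) :=
          measure_union_le _ _
      _ = volume (ball v ((1 / 2) ^ j) ∩ B) := by rw [hsph, add_zero]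
  exact ENNReal.div_le_div h3 (measure_mono ball_subset_closedBall)

end Pool.Agent.H44.LD
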