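import Pool.Agent.H44.LD.LDefs
import Pool.Agent.H44.LD.CESL
import Pool.Agent.H79.Par.GMain

/-!
# Module RAT: proportions

PROOF. `scaling` (used in `prop_of_dens`, H79/Par/GMain): `volume (ball v0 r ∩ {v | ¬ HypDeg v}) / volume (ball v0 r) = volume (ball 0 1 ∩ {v | ¬ HypDeg (pv v0 (v, r))}) / volume (ball 0 1)` for `r > 0`, and the numerator is `prop v0 HypDeg r` (`pv v0 (v, r) = v0 + r • v`). `ces_le` with
`C = (volume (ball 0 1))⁻¹` (`≠ ⊤`), bound `1` for the left side.
-/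

set_option autoImplicit false

open Filter Topology Polynomial Metric Set MeasureTheory

namespace Pool.Agent.H44.LD

open Pool.Agent.H44.Fatou Pool.Agent.H32.BT Pool.Agent.H79.Eul Pool.Agent.H79.Par
open Pool.Agent.H35.RL Pool.Agent.H35.EX Pool.Agent.H91.CE

private theorem prop_le' {d : ℕ} (v0 : E d) (X : E d → Prop) (r : ℝ) :
    prop v0 X r ≤ volume (ball (0 : E d) 1) := measure_mono inter_subset_left

theorem ces_ratio {d : ℕ} {v0 : E d} (h : Ces (fun j => prop v0 HypDeg ((1 / 2) ^ j))) :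
    Ces (fun j => volume (ball v0 ((1 / 2) ^ j) ∩ {v | ¬ HypDeg v}) /
      volume (ball v0 ((1 / 2) ^ j))) := by
  have hb : volume (ball (0 : E d) 1) ≠ 0 := (measure_ball_pos _ _ one_pos).ne'
  have hV : volume (ball (0 : E d) 1) ≠ ⊤ := measure_ball_lt_top.ne
  refine ces_le (i0 := 0) (C := (volume (ball (0 : E d) 1))⁻¹) (B := 1) (ENNReal.inv_ne_top.2 hb)
    ENNReal.one_ne_top hV (fun i => ?_) (fun j => prop_le' _ _ _) ?_ h
  · refine ENNReal.div_le_of_le_mul ?_
    rw [one_mul]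
    exact measure_mono inter_subset_left
  · intro i _
    show volume (ball v0 ((1 / 2) ^ i) ∩ {v | ¬ HypDeg v}) / volume (ball v0 ((1 / 2) ^ i)) ≤
      (volume (ball (0 : E d) 1))⁻¹ * prop v0 HypDeg ((1 / 2) ^ i)
    rw [scaling _ _ (by positivity), ENNReal.div_eq_inv_mul]
    exact le_rfl

end Pool.Agent.H44.LD
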